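import Mathlib

/-!
# UGB-9: selection of good sides (pure real inequalities)

Let `B₁ = {b ∈ S : c₁ / 2 * q₀ ≤ Q b}` and `B₂ = {b ∈ S : lam * η * q₀ < F b}`, `lam = 8 C₁ C₂ / c₁ ^ 2`, `B = B₁ \ B₂`, `n = |S|`.
The `b ∉ B₁` contribute at most `c₁ / 2 * q₀ * n` to `∑ Q`, so `∑_{B₁} Q ≥ c₁ / 2 * q₀ * n`; by Cauchy-Schwarz (`sq_sum_le_card_mul_sum_sq`,
or `Finset.inner_mul_le_norm_mul_norm`) `(c₁ q₀ n / 2) ^ 2 ≤ |B₁| * C₁ q₀ ^ 2 n`, i.e. `|B₁| ≥ c₁ ^ 2 / (4 C₁) * n`. Markov: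
`|B₂| * (lam η q₀) ≤ C₂ η q₀ n`, i.e. `|B₂| ≤ c₁ ^ 2 / (8 C₁) * n`. On `B`: `F b ≤ lam η q₀ ≤ (2 lam / c₁) η Q b`. (If `n = 0` take `B = ∅`.)
-/

set_option autoImplicit false

namespace UGB

open Finset

theorem select {β : Type} [DecidableEq β] (S : Finset β) (Q F : β → ℝ) (hQ : ∀ b ∈ S, 0 ≤ Q b)
    (hF : ∀ b ∈ S, 0 ≤ F b) (q₀ c₁ C₁ C₂ η : ℝ) (hq : 0 < q₀) (hc : 0 < c₁) (hC₁ : 0 < C₁) (hC₂ : 0 < C₂)
    (hη : 0 < η) (h1 : c₁ * q₀ * S.card ≤ ∑ b ∈ S, Q b) (h2 : ∑ b ∈ S, Q b ^ 2 ≤ C₁ * q₀ ^ 2 * S.card)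
    (h3 : ∑ b ∈ S, F b ≤ C₂ * η * q₀ * S.card) :
    ∃ B ⊆ S, c₁ ^ 2 / (8 * C₁) * S.card ≤ (B.card : ℝ) ∧
      ∀ b ∈ B, 0 < Q b ∧ F b ≤ 16 * C₁ * C₂ / c₁ ^ 3 * η * Q b := by
  classical
  set n : ℝ := (S.card : ℝ) with hn
  have hn0 : 0 ≤ n := by positivity
  set lam : ℝ := 8 * C₁ * C₂ / c₁ ^ 2 with hlam
  have hlam0 : 0 < lam := by positivity
  set B₁ := S.filter (fun b => c₁ / 2 * q₀ ≤ Q b) with hB₁
  set B₂ := S.filter (fun b => lam * η * q₀ < F b) with hB₂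
  -- lower bound for the sum over B₁
  have e1 : c₁ / 2 * q₀ * n ≤ ∑ b ∈ B₁, Q b := by
    have hs := Finset.sum_filter_add_sum_filter_not S (fun b => c₁ / 2 * q₀ ≤ Q b) Q
    have hle : ∑ b ∈ S.filter (fun b => ¬ c₁ / 2 * q₀ ≤ Q b), Q b ≤ n * (c₁ / 2 * q₀) := by
      calc ∑ b ∈ S.filter (fun b => ¬ c₁ / 2 * q₀ ≤ Q b), Q b
          ≤ ∑ _b ∈ S.filter (fun b => ¬ c₁ / 2 * q₀ ≤ Q b), (c₁ / 2 * q₀) := by
            apply Finset.sum_le_sum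
            intro b hb
            have := (Finset.mem_filter.mp hb).2
            linarith
        _ = ((S.filter (fun b => ¬ c₁ / 2 * q₀ ≤ Q b)).card : ℝ) * (c₁ / 2 * q₀) := by
            rw [Finset.sum_const, nsmul_eq_mul]
        _ ≤ n * (c₁ / 2 * q₀) := by
            apply mul_le_mul_of_nonneg_right _ (by positivity)
            rw [hn]
            exact_mod_cast Finset.card_filter_le _ _
    rw [← hB₁] at hs
    nlinarith
  -- Cauchy-Schwarz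
  have e2 : (∑ b ∈ B₁, Q b) ^ 2 ≤ (B₁.card : ℝ) * ∑ b ∈ B₁, Q b ^ 2 := sq_sum_le_card_mul_sum_sq
  have e3 : ∑ b ∈ B₁, Q b ^ 2 ≤ C₁ * q₀ ^ 2 * n := by
    refine le_trans ?_ h2
    apply Finset.sum_le_sum_of_subset_of_nonneg (Finset.filter_subset _ _)
    intro b _ _
    positivity
  have e4 : c₁ ^ 2 / (4 * C₁) * n ≤ (B₁.card : ℝ) := by
    rcases hn0.eq_or_lt with h0 | hpos
    · rw [← h0]; simp
    · have h5 : (c₁ / 2 * q₀ * n) ^ 2 ≤ (B₁.card : ℝ) * (C₁ * q₀ ^ 2 * n) := by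
        calc (c₁ / 2 * q₀ * n) ^ 2 ≤ (∑ b ∈ B₁, Q b) ^ 2 := by
              apply pow_le_pow_left₀ (by positivity) e1
          _ ≤ (B₁.card : ℝ) * ∑ b ∈ B₁, Q b ^ 2 := e2
          _ ≤ (B₁.card : ℝ) * (C₁ * q₀ ^ 2 * n) := by
              apply mul_le_mul_of_nonneg_left e3 (by positivity)
      have h6 : (c₁ ^ 2 / (4 * C₁) * n) * (C₁ * q₀ ^ 2 * n) ≤ (B₁.card : ℝ) * (C₁ * q₀ ^ 2 * n) := by
        have : (c₁ ^ 2 / (4 * C₁) * n) * (C₁ * q₀ ^ 2 * n) = (c₁ / 2 * q₀ * n) ^ 2 := by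
          field_simp
          ring
        rw [this]; exact h5
      exact le_of_mul_le_mul_right h6 (by positivity)
  -- Markov
  have e5 : (B₂.card : ℝ) * (lam * η * q₀) ≤ C₂ * η * q₀ * n := by
    calc (B₂.card : ℝ) * (lam * η * q₀) = ∑ _b ∈ B₂, (lam * η * q₀) := by
          rw [Finset.sum_const, nsmul_eq_mul]
      _ ≤ ∑ b ∈ B₂, F b := by
          apply Finset.sum_le_sum
          intro b hb
          exact (Finset.mem_filter.mp hb).2.le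
      _ ≤ ∑ b ∈ S, F b := by
          apply Finset.sum_le_sum_of_subset_of_nonneg (Finset.filter_subset _ _)
          intro b hb _
          exact hF b hb
      _ ≤ C₂ * η * q₀ * n := h3
  have e6 : (B₂.card : ℝ) ≤ c₁ ^ 2 / (8 * C₁) * n := by
    have h6 : (B₂.card : ℝ) * (lam * η * q₀) ≤ (c₁ ^ 2 / (8 * C₁) * n) * (lam * η * q₀) := by
      have : (c₁ ^ 2 / (8 * C₁) * n) * (lam * η * q₀) = C₂ * η * q₀ * n := by
        rw [hlam]
        field_simp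
      rw [this]; exact e5
    exact le_of_mul_le_mul_right h6 (by positivity)
  refine ⟨B₁ \ B₂, ?_, ?_, ?_⟩
  · exact Finset.sdiff_subset.trans (Finset.filter_subset _ _)
  · have h7 : B₁.card ≤ (B₁ \ B₂).card + B₂.card := by
      have := Finset.card_le_card_sdiff_add_card (s := B₁) (t := B₂)
      exact this
    have h8 : (B₁.card : ℝ) ≤ ((B₁ \ B₂).card : ℝ) + (B₂.card : ℝ) := by exact_mod_cast h7
    have h9 : c₁ ^ 2 / (4 * C₁) * n = c₁ ^ 2 / (8 * C₁) * n + c₁ ^ 2 / (8 * C₁) * n := by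
      field_simp
      ring
    linarith
  · intro b hb
    obtain ⟨hb1, hb2⟩ := Finset.mem_sdiff.mp hb
    have hbS : b ∈ S := (Finset.mem_filter.mp hb1).1
    have hQb : c₁ / 2 * q₀ ≤ Q b := (Finset.mem_filter.mp hb1).2
    have hFb : F b ≤ lam * η * q₀ := by
      by_contra hcon
      push Not at hcon
      exact hb2 (Finset.mem_filter.mpr ⟨hbS, hcon⟩)
    refine ⟨lt_of_lt_of_le (by positivity) hQb, ?_⟩
    calc F b ≤ lam * η * q₀ := hFb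
      _ = 16 * C₁ * C₂ / c₁ ^ 3 * η * (c₁ / 2 * q₀) := by
          rw [hlam]
          field_simp
          ring
      _ ≤ 16 * C₁ * C₂ / c₁ ^ 3 * η * Q b := by
          apply mul_le_mul_of_nonneg_left hQb (by positivity)

end UGB
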