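import Pool.Agent.Helper72.UGB.Gcs

/-!
# UGB-8: many cubes with sides divisible by `W`

If `A` is empty the left side is `0` (`2 ^ d ≥ 1`). Otherwise let `N = P / W ≥ 1`, `A' = A.image (fun q => q / W)` and `u` the minimum of
`A'` (`Finset.min'`). The elements of `A` are `q = W (q / W) + r`, so `q ↦ q / W` is injective on `A`, `|A'| = |A|`, and for `q, q' ∈ A` one
has `W (q' / W - q / W) = q' - q < P`, hence `A' ⊆ [u, u + N]`. For `b : Fin d → ℕ` the map `q ↦ q / W` is a bijection from `cub A W b`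
onto `cub A' 1 b` (`(q + W y) / W = q / W + y`, `off W b s = W ∑`, `off 1 b s = ∑`, and `q' ∈ A` iff `q' % W = r` and `q' / W ∈ A'`). Apply
`gcs d` to `A'` and multiply by constants: `P < W (N + 1) ≤ 2 W N`, so `P ^ (d + 1) ≤ (2 W) ^ (d + 1) N ^ (d + 1)`, and
`N ≤ P` on the right side. Take `c' = c / (2 W) ^ (d + 1)`, `C' = C`.
-/

set_option autoImplicit false

namespace UGB

open Finset MRP

private theorem gcsW_arith (c X a n : ℝ) (hX : X ≠ 0) : c / X * a * (X * n) = c * a * n := by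
  field_simp

theorem gcsW (d W : ℕ) (hW : 0 < W) : ∃ c C : ℝ, 0 < c ∧ 0 < C ∧ ∀ P : ℕ, W ≤ P → ∀ r : ℕ,
    ∀ A : Finset ℕ, A ⊆ Ioc P (2 * P) → (∀ q ∈ A, q % W = r) →
      c * (A.card : ℝ) ^ (2 ^ d) * (P : ℝ) ^ (d + 1) ≤
        ((∑ b ∈ bx d (P / W), ((cub A W b).card : ℝ)) + C * (P : ℝ) ^ d) * (P : ℝ) ^ (2 ^ d) := by
  classical
  obtain ⟨c, C, hc, hC, hg⟩ := gcs d
  have hWR : (0 : ℝ) < W := by exact_mod_cast hW
  refine ⟨c / (2 * W) ^ (d + 1), C, by positivity, hC, fun P hP r A hA hAr => ?_⟩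
  rcases A.eq_empty_or_nonempty with rfl | hne
  · have h0 : ((∅ : Finset ℕ).card : ℝ) ^ (2 ^ d) = 0 := by
      rw [Finset.card_empty, Nat.cast_zero, zero_pow (by positivity)]
    rw [h0, mul_zero, zero_mul]
    have : 0 ≤ ∑ b ∈ bx d (P / W), ((cub (∅ : Finset ℕ) W b).card : ℝ) :=
      Finset.sum_nonneg fun b _ => Nat.cast_nonneg _
    positivity
  set N : ℕ := P / W with hN
  have hN1 : 1 ≤ N := (Nat.one_le_div_iff hW).2 hP
  have hNP : (N : ℝ) ≤ P := by exact_mod_cast Nat.div_le_self P W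
  set A' : Finset ℕ := A.image (fun q => q / W) with hA'
  have hne' : A'.Nonempty := hne.image _
  have hdec : ∀ q ∈ A, q = W * (q / W) + r := by
    intro q hq
    have := Nat.div_add_mod q W
    rw [hAr q hq] at this
    exact this.symm
  have hcard : A'.card = A.card := by
    refine Finset.card_image_of_injOn fun q hq q' hq' he => ?_
    rw [hdec q hq, hdec q' hq', he]
  have hsub : A' ⊆ Icc (A'.min' hne') (A'.min' hne' + N) := by
    intro x hx
    rw [Finset.mem_Icc]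
    refine ⟨Finset.min'_le _ _ hx, ?_⟩
    obtain ⟨q, hq, rfl⟩ := Finset.mem_image.1 hx
    obtain ⟨q₀, hq₀, he⟩ := Finset.mem_image.1 (Finset.min'_mem A' hne')
    rw [← he]
    have h1 := Finset.mem_Ioc.1 (hA hq)
    have h2 := Finset.mem_Ioc.1 (hA hq₀)
    have h3 := hdec q hq
    have h4 := hdec q₀ hq₀
    by_contra hcon
    push Not at hcon
    have h5 : W * (q₀ / W + N + 1) ≤ W * (q / W) := Nat.mul_le_mul_left _ hcon
    have h6 : P < W * (N + 1) := by rw [hN]; exact Nat.lt_mul_div_succ P hW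
    have h7 : W * (q₀ / W + N + 1) = W * (q₀ / W) + W * (N + 1) := by ring
    omega
  have hcub : ∀ b : Fin d → ℕ, ((cub A' 1 b).card : ℝ) ≤ ((cub A W b).card : ℝ) := by
    intro b
    have h1 : cub A' 1 b ⊆ (cub A W b).image (fun q => q / W) := by
      intro x hx
      obtain ⟨hx1, hx2⟩ := Finset.mem_filter.1 hx
      obtain ⟨p, hp, rfl⟩ := Finset.mem_image.1 hx1
      refine Finset.mem_image.2 ⟨p, Finset.mem_filter.2 ⟨hp, fun s => ?_⟩, rfl⟩
      obtain ⟨q, hq, he⟩ := Finset.mem_image.1 (hx2 s)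
      have h2 : p + off W b s = q := by
        have h3 := hdec p hp
        have h4 := hdec q hq
        unfold off at he ⊢
        rw [one_mul] at he
        rw [he, Nat.mul_add] at h4
        omega
      rw [h2]
      exact hq
    exact_mod_cast (Finset.card_le_card h1).trans Finset.card_image_le
  have h := hg N hN1 (A'.min' hne') A' hsub
  rw [hcard] at h
  have hPN : (P : ℝ) ≤ 2 * W * N := by
    have h1 : P < W * (N + 1) := by
      rw [hN]; exact Nat.lt_mul_div_succ P hW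
    have h2 : W * (N + 1) ≤ W * (2 * N) := Nat.mul_le_mul_left _ (by omega)
    have h3 : P ≤ 2 * W * N := by
      calc P ≤ W * (2 * N) := by omega
        _ = 2 * W * N := by ring
    exact_mod_cast h3
  have h1 : c / (2 * W) ^ (d + 1) * (A.card : ℝ) ^ (2 ^ d) * (P : ℝ) ^ (d + 1) ≤
      c * (A.card : ℝ) ^ (2 ^ d) * (N : ℝ) ^ (d + 1) := by
    have h2 : (P : ℝ) ^ (d + 1) ≤ (2 * W) ^ (d + 1) * (N : ℝ) ^ (d + 1) := by
      rw [← mul_pow]
      exact pow_le_pow_left₀ (Nat.cast_nonneg _) hPN _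
    have h3 : c / (2 * W) ^ (d + 1) * (A.card : ℝ) ^ (2 ^ d) * (P : ℝ) ^ (d + 1) ≤
        c / (2 * W) ^ (d + 1) * (A.card : ℝ) ^ (2 ^ d) * ((2 * W) ^ (d + 1) * (N : ℝ) ^ (d + 1)) :=
      mul_le_mul_of_nonneg_left h2 (by positivity)
    exact h3.trans (le_of_eq (gcsW_arith _ _ _ _ (by positivity)))
  refine h1.trans (h.trans ?_)
  have h4 : ∑ b ∈ bx d N, ((cub A' 1 b).card : ℝ) ≤ ∑ b ∈ bx d N, ((cub A W b).card : ℝ) :=
    Finset.sum_le_sum fun b _ => hcub b
  have h5 : 0 ≤ ∑ b ∈ bx d N, ((cub A' 1 b).card : ℝ) :=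
    Finset.sum_nonneg fun b _ => Nat.cast_nonneg _
  have h6 : (N : ℝ) ^ d ≤ (P : ℝ) ^ d := pow_le_pow_left₀ (Nat.cast_nonneg _) hNP d
  have h7 : (N : ℝ) ^ (2 ^ d) ≤ (P : ℝ) ^ (2 ^ d) := pow_le_pow_left₀ (Nat.cast_nonneg _) hNP _
  have h8 : C * (N : ℝ) ^ d ≤ C * (P : ℝ) ^ d := mul_le_mul_of_nonneg_left h6 hC.le
  exact mul_le_mul (add_le_add h4 h8) h7 (pow_nonneg (Nat.cast_nonneg _) _)
    (add_nonneg (h5.trans h4) (mul_nonneg hC.le (pow_nonneg (Nat.cast_nonneg _) _)))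

end UGB
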