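import Pool.Agent.Helper72.UGB.Tuples

/-!
# UGB-5: second moment of the number of cubes with given sides

Let `A = AP P W r`, `N = P / W`, `Q b = (cub A W b).card`. `Q b ^ 2` is the number of pairs `(p, p')` in `cub A W b`, at most
`Q b` (pairs `p = p'`) plus twice the number of pairs with `p < p'`. Two elements of `A` are congruent modulo `W` and differ by less
than `P`, so `p' = p + W a` with `1 ≤ a ≤ N`; all `p + off W b s` and `p + W a + off W b s` are prime. So the second count, summed over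
`b ∈ bx d N`, is at most `∑_{v ∈ bx (d + 1) N} #{n ∈ [1, 2P] : ∀ T ∈ 𝒯, (n + off W v T).Prime}` with `v = Fin.cons a b` and `𝒯` = ALL
subsets of `Fin (d + 1)` (`𝒯 = Finset.univ`, `2 ^ (d + 1)` of them: `s.map (Fin.succEmb d)` and `insert 0 (s.map ..)`;
`∑_{i ∈ T} Fin.cons a b i`). The first count is at most the same sum with `D = d`, `𝒯 = univ` (`2 ^ d` subsets). By `tuples`:
`∑_b Q b ^ 2 ≤ C₁ P ^ (d + 1) / (log P) ^ (2 ^ d) + 2 C₂ P ^ (d + 2) / (log P) ^ (2 ^ (d + 1))`, and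
`(log P) ^ (2 ^ d) ≤ C P` for large `P`.
-/

set_option autoImplicit false

namespace UGB

open Finset MRP

/-- the numbers all of whose translates are prime -/
private def tup (D W P : ℕ) (v : Fin D → ℕ) : Finset ℕ :=
  (Icc 1 (2 * P)).filter (fun n => ∀ T ∈ (Finset.univ : Finset (Finset (Fin D))),
    (n + off W v T).Prime)

private theorem mem_AP {P W r p : ℕ} (h : p ∈ AP P W r) :
    P < p ∧ p ≤ 2 * P ∧ p.Prime ∧ p % W = r := by
  unfold AP dyP at h
  rw [mem_filter, mem_filter, mem_Ioc] at h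
  exact ⟨h.1.1.1, h.1.1.2, h.1.2, h.2⟩

private theorem off_cons {d : ℕ} (W a : ℕ) (b : Fin d → ℕ) (T : Finset (Fin (d + 1))) :
    off W (Fin.cons a b : Fin (d + 1) → ℕ) T =
      (if (0 : Fin (d + 1)) ∈ T then W * a else 0) +
        off W b (univ.filter fun j => Fin.succ j ∈ T) := by
  classical
  unfold off
  have h1 : ∑ i ∈ T, (Fin.cons a b : Fin (d + 1) → ℕ) i =
      ∑ i, if i ∈ T then (Fin.cons a b : Fin (d + 1) → ℕ) i else 0 := by
    rw [← Finset.sum_filter]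
    congr 1
    ext i
    simp
  have h2 : ∑ j ∈ univ.filter (fun j => Fin.succ j ∈ T), b j =
      ∑ j, if Fin.succ j ∈ T then b j else 0 := by
    rw [← Finset.sum_filter]
  rw [h1, h2, Fin.sum_univ_succ, mul_add]
  simp only [Fin.cons_zero, Fin.cons_succ]
  congr 1
  split_ifs <;> simp

private theorem first_le (d W P r : ℕ) (b : Fin d → ℕ) :
    (cub (AP P W r) W b).card ≤ (tup d W P b).card := by
  refine card_le_card fun p hp => ?_
  unfold cub at hp
  rw [mem_filter] at hp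
  obtain ⟨h1, h2⟩ := hp
  obtain ⟨h3, h4, -, -⟩ := mem_AP h1
  unfold tup
  rw [mem_filter, mem_Icc]
  exact ⟨⟨by omega, h4⟩, fun T _ => (mem_AP (h2 T)).2.2.1⟩

private theorem pairs_le (d W P r : ℕ) (hW : 0 < W) (b : Fin d → ℕ) :
    (((cub (AP P W r) W b) ×ˢ (cub (AP P W r) W b)).filter fun x => x.1 < x.2).card ≤
      ∑ a ∈ Icc 1 (P / W), (tup (d + 1) W P (Fin.cons a b : Fin (d + 1) → ℕ)).card := by
  classical
  rw [← Finset.card_sigma]
  refine Finset.card_le_card_of_injOn (fun x => ⟨(x.2 - x.1) / W, x.1⟩) ?_ ?_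
  · intro x hx
    rw [Finset.mem_coe, mem_filter, mem_product] at hx
    obtain ⟨⟨h1, h2⟩, h3⟩ := hx
    unfold cub at h1 h2
    rw [mem_filter] at h1 h2
    obtain ⟨a1, a2, a3, a4⟩ := mem_AP h1.1
    obtain ⟨b1, b2, b3, b4⟩ := mem_AP h2.1
    have hdvd : W ∣ x.2 - x.1 := (Nat.modEq_iff_dvd' h3.le).1 (a4.trans b4.symm)
    obtain ⟨a, ha⟩ := hdvd
    have hdiv : (x.2 - x.1) / W = a := by rw [ha]; exact Nat.mul_div_cancel_left _ hW
    have ha1 : 1 ≤ a := by
      rcases Nat.eq_zero_or_pos a with h0 | h0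
      · rw [h0] at ha
        omega
      · exact h0
    have ha2 : a ≤ P / W := by
      rw [Nat.le_div_iff_mul_le hW, Nat.mul_comm]
      omega
    have hx2 : x.2 = x.1 + W * a := by omega
    rw [Finset.mem_coe, Finset.mem_sigma]
    simp only [hdiv]
    refine ⟨mem_Icc.2 ⟨ha1, ha2⟩, ?_⟩
    unfold tup
    rw [mem_filter, mem_Icc]
    refine ⟨⟨by omega, a2⟩, fun T _ => ?_⟩
    rw [off_cons]
    split_ifs with hT
    · have := (mem_AP (h2.2 (univ.filter fun j => Fin.succ j ∈ T))).2.2.1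
      rw [hx2, add_assoc] at this
      exact this
    · rw [zero_add]
      exact (mem_AP (h1.2 (univ.filter fun j => Fin.succ j ∈ T))).2.2.1
  · intro x hx y hy hxy
    rw [Finset.mem_coe, mem_filter, mem_product] at hx hy
    obtain ⟨⟨h1, h2⟩, h3⟩ := hx
    obtain ⟨⟨k1, k2⟩, k3⟩ := hy
    unfold cub at h1 h2 k1 k2
    rw [mem_filter] at h1 h2 k1 k2
    have e1 : (x.2 - x.1) / W = (y.2 - y.1) / W ∧ x.1 = y.1 := by
      have := hxy
      simpa [Sigma.mk.injEq] using this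
    have d1 : W ∣ x.2 - x.1 :=
      (Nat.modEq_iff_dvd' h3.le).1 ((mem_AP h1.1).2.2.2.trans (mem_AP h2.1).2.2.2.symm)
    have d2 : W ∣ y.2 - y.1 :=
      (Nat.modEq_iff_dvd' k3.le).1 ((mem_AP k1.1).2.2.2.trans (mem_AP k2.1).2.2.2.symm)
    have e2 : x.2 - x.1 = y.2 - y.1 := by
      rw [← Nat.div_mul_cancel d1, ← Nat.div_mul_cancel d2, e1.1]
    have e3 := e1.2
    exact Prod.ext e1.2 (by omega)

private theorem sq_le (s : Finset ℕ) :
    s.card ^ 2 ≤ s.card + 2 * ((s ×ˢ s).filter fun x => x.1 < x.2).card := by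
  classical
  have h1 : s.card ^ 2 = (s ×ˢ s).card := by rw [card_product, sq]
  have h2 : (s ×ˢ s) = ((s ×ˢ s).filter fun x => x.1 = x.2) ∪
      (((s ×ˢ s).filter fun x => x.1 < x.2) ∪ ((s ×ˢ s).filter fun x => x.2 < x.1)) := by
    ext x
    simp only [mem_union, mem_filter]
    constructor
    · intro hx
      rcases lt_trichotomy x.1 x.2 with h | h | h
      · exact Or.inr (Or.inl ⟨hx, h⟩)
      · exact Or.inl ⟨hx, h⟩
      · exact Or.inr (Or.inr ⟨hx, h⟩)
    · rintro (h | h | h) <;> exact h.1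
  have h3 : ((s ×ˢ s).filter fun x => x.1 = x.2).card ≤ s.card := by
    refine card_le_card_of_injOn Prod.fst ?_ ?_
    · intro x hx
      exact (mem_product.1 (mem_filter.1 hx).1).1
    · intro x hx y hy hxy
      have e1 := (mem_filter.1 hx).2
      have e2 := (mem_filter.1 hy).2
      exact Prod.ext hxy (by rw [← e1, ← e2]; exact hxy)
  have h4 : ((s ×ˢ s).filter fun x => x.2 < x.1).card ≤
      ((s ×ˢ s).filter fun x => x.1 < x.2).card := by
    refine card_le_card_of_injOn Prod.swap ?_ ?_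
    · intro x hx
      have e1 := mem_filter.1 (Finset.mem_coe.1 hx)
      have e2 := mem_product.1 e1.1
      exact Finset.mem_coe.2 (mem_filter.2 ⟨mem_product.2 ⟨e2.2, e2.1⟩, e1.2⟩)
    · intro x _ y _ hxy
      exact Prod.swap_injective hxy
  rw [h1, h2]
  refine (card_union_le _ _).trans ?_
  have := card_union_le ((s ×ˢ s).filter fun x => x.1 < x.2) ((s ×ˢ s).filter fun x => x.2 < x.1)
  rw [← h2]
  omega

private theorem sum_cons (d N : ℕ) (F : (Fin (d + 1) → ℕ) → ℝ) :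
    ∑ b ∈ bx d N, ∑ a ∈ Icc 1 N, F (Fin.cons a b) = ∑ v ∈ bx (d + 1) N, F v := by
  rw [← Finset.sum_product']
  refine Finset.sum_bij' (fun x _ => (Fin.cons x.2 x.1 : Fin (d + 1) → ℕ))
    (fun v _ => (Fin.tail v, v 0)) ?_ ?_ ?_ ?_ ?_
  · rintro ⟨b, a⟩ h
    rw [mem_product] at h
    rw [mem_bx]
    intro i
    refine Fin.cases ?_ (fun j => ?_) i
    · simpa using h.2
    · simpa using (mem_bx.1 h.1) j
  · intro v hv
    rw [mem_bx] at hv
    rw [mem_product, mem_bx]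
    exact ⟨fun i => hv i.succ, mem_Icc.2 (hv 0)⟩
  · rintro ⟨b, a⟩ _
    simp
  · intro v _
    simp
  · rintro ⟨b, a⟩ _
    rfl

private theorem log_pow_le (k : ℕ) : ∃ P₀ : ℕ, ∀ P : ℕ, P₀ ≤ P → (Real.log P) ^ k ≤ P := by
  have h1 := (Real.isLittleO_pow_log_id_atTop (n := k)).bound (show (0 : ℝ) < 1 by norm_num)
  have h2 := tendsto_natCast_atTop_atTop (R := ℝ) |>.eventually h1
  obtain ⟨P₀, h⟩ := Filter.eventually_atTop.1 h2
  refine ⟨P₀, fun P hP => ?_⟩
  have h3 := h P hP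
  rw [one_mul] at h3
  have h4 : ‖(id (P : ℝ) : ℝ)‖ = (P : ℝ) := by
    simp
  rw [h4] at h3
  exact (le_abs_self _).trans h3

theorem second (d W : ℕ) (hW : 0 < W) : ∃ C : ℝ, 0 < C ∧ ∃ P₀ : ℕ, ∀ P : ℕ, P₀ ≤ P → ∀ r : ℕ,
    ∑ b ∈ bx d (P / W), ((cub (AP P W r) W b).card : ℝ) ^ 2 ≤
      C * P ^ (d + 2) / (Real.log P) ^ (2 ^ (d + 1)) := by
  classical
  obtain ⟨C₁, hC₁, P₁, h₁⟩ := tuples d W (2 ^ d) hW
  obtain ⟨C₂, hC₂, P₂, h₂⟩ := tuples (d + 1) W (2 ^ (d + 1)) hW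
  obtain ⟨P₃, h₃⟩ := log_pow_le (2 ^ d)
  refine ⟨C₁ + 2 * C₂, by positivity, max 3 (max P₁ (max P₂ P₃)), fun P hP r => ?_⟩
  have hP3 : 3 ≤ P := (le_max_left _ _).trans hP
  have hP1 : P₁ ≤ P := ((le_max_left _ _).trans (le_max_right _ _)).trans hP
  have hP2 : P₂ ≤ P :=
    (((le_max_left _ _).trans (le_max_right _ _)).trans (le_max_right _ _)).trans hP
  have hP4 : P₃ ≤ P :=
    (((le_max_right _ _).trans (le_max_right _ _)).trans (le_max_right _ _)).trans hP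
  have hPr : (3 : ℝ) ≤ P := by exact_mod_cast hP3
  have hL : 0 < Real.log P := Real.log_pos (by linarith)
  have e₁ := h₁ P hP1 univ (by simp [Fintype.card_finset])
  have e₂ := h₂ P hP2 univ (by simp [Fintype.card_finset])
  have e₃ := h₃ P hP4
  have hb : ∀ b : Fin d → ℕ, ((cub (AP P W r) W b).card : ℝ) ^ 2 ≤
      ((tup d W P b).card : ℝ) +
        2 * ∑ a ∈ Icc 1 (P / W), ((tup (d + 1) W P (Fin.cons a b : Fin (d + 1) → ℕ)).card : ℝ) := by
    intro b
    have k1 := sq_le (cub (AP P W r) W b)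
    have k2 := first_le d W P r b
    have k3 := pairs_le d W P r hW b
    have k4 : (cub (AP P W r) W b).card ^ 2 ≤ (tup d W P b).card +
        2 * ∑ a ∈ Icc 1 (P / W), (tup (d + 1) W P (Fin.cons a b : Fin (d + 1) → ℕ)).card := by
      omega
    exact_mod_cast k4
  have hsum : ∑ b ∈ bx d (P / W), ((cub (AP P W r) W b).card : ℝ) ^ 2 ≤
      ∑ b ∈ bx d (P / W), ((tup d W P b).card : ℝ) +
        2 * ∑ v ∈ bx (d + 1) (P / W), ((tup (d + 1) W P v).card : ℝ) := by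
    rw [← sum_cons d (P / W) (fun v => ((tup (d + 1) W P v).card : ℝ)), Finset.mul_sum,
      ← Finset.sum_add_distrib]
    exact Finset.sum_le_sum fun b _ => hb b
  have f₁ : ∑ b ∈ bx d (P / W), ((tup d W P b).card : ℝ) ≤
      C₁ * P ^ (d + 1) / (Real.log P) ^ (2 ^ d) := e₁
  have f₂ : ∑ v ∈ bx (d + 1) (P / W), ((tup (d + 1) W P v).card : ℝ) ≤
      C₂ * P ^ (d + 2) / (Real.log P) ^ (2 ^ (d + 1)) := e₂
  have f₃ : C₁ * (P : ℝ) ^ (d + 1) / (Real.log P) ^ (2 ^ d) ≤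
      C₁ * P ^ (d + 2) / (Real.log P) ^ (2 ^ (d + 1)) := by
    rw [div_le_div_iff₀ (by positivity) (by positivity)]
    have g1 : (Real.log P) ^ (2 ^ (d + 1)) = (Real.log P) ^ (2 ^ d) * (Real.log P) ^ (2 ^ d) := by
      rw [← pow_add]
      congr 1
      ring
    rw [g1]
    have g2 : (0 : ℝ) < (Real.log P) ^ (2 ^ d) := by positivity
    calc C₁ * (P : ℝ) ^ (d + 1) * ((Real.log P) ^ (2 ^ d) * (Real.log P) ^ (2 ^ d))
        ≤ C₁ * (P : ℝ) ^ (d + 1) * (P * (Real.log P) ^ (2 ^ d)) := by gcongr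
      _ = _ := by ring
  calc ∑ b ∈ bx d (P / W), ((cub (AP P W r) W b).card : ℝ) ^ 2
      ≤ C₁ * P ^ (d + 2) / (Real.log P) ^ (2 ^ (d + 1)) +
        2 * (C₂ * P ^ (d + 2) / (Real.log P) ^ (2 ^ (d + 1))) := by linarith
    _ = _ := by ring

end UGB
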