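import Pool.Agent.Helper72.UGB.Tuples

/-!
# UGB-6: pairs of prime cubes with a common vertex

Let `A = AP P W r`, `N = P / W`, `m = 2 ^ (d + 1) - 1`. The left hand side is at most the number of triples `(t, b, b')`, `t ∈ A`,
`b, b' ∈ bx d N`, with `p = t - off W b s₀`, `p' = t - off W b' s₀` in `cub A W b`, `cub A W b'`. Put
`n = t - off W b s₀ - off W b' s₀ = p + p' - t`; as `p, p' > P` and `t ≤ 2 P` one has `n ≥ 1`, and `n ≤ p' ≤ 2 P`. Let `v ∈ bx (2 d) N` be
`b` followed by `b'` (`Fin.append`, `Fin (d + d)`; use `D = d + d`) and let `𝒯` consist of the sets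
`T s = (s in the first block) ∪ (s₀ in the second block)`, `s` any subset of `Fin d`, and
`T' s' = (s₀ in the first block) ∪ (s' in the second block)`, `s' ≠ s₀`. These are `2 ^ d + 2 ^ d - 1 = m` different sets.
`n + off W v (T s) = p + off W b s` and `n + off W v (T' s') = p' + off W b' s'` are prime. `(b, b', n) ` determines `(t, b, b')`. So
the number of triples is at most `∑_{v ∈ bx (d + d) N} #{n ∈ [1, 2P] : ∀ T ∈ 𝒯, (n + off W v T).Prime}`: apply `tuples (d + d) W m`.
(For given `b` and `t` there is at most one `p`, so the square of the cardinality is the number of pairs `(b, b')`.)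
-/

set_option autoImplicit false

namespace UGB

open Finset MRP

/-- The subset of the double block with the given traces. -/
private def EE {d : ℕ} (q : Finset (Fin d) × Finset (Fin d)) : Finset (Fin (d + d)) :=
  q.1.map (Fin.castAddEmb d) ∪ q.2.map (Fin.natAddEmb d)

private theorem mem_EE_left {d : ℕ} (q : Finset (Fin d) × Finset (Fin d)) (i : Fin d) :
    Fin.castAdd d i ∈ EE q ↔ i ∈ q.1 := by
  simp only [EE, mem_union, mem_map, Fin.castAddEmb_apply, Fin.natAddEmb_apply]
  constructor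
  · rintro (⟨j, hj, h⟩ | ⟨j, hj, h⟩)
    · rwa [← Fin.castAdd_injective d d h]
    · exfalso
      have := congrArg Fin.val h
      simp only [Fin.val_natAdd, Fin.val_castAdd] at this
      omega
  · intro h
    exact Or.inl ⟨i, h, rfl⟩

private theorem mem_EE_right {d : ℕ} (q : Finset (Fin d) × Finset (Fin d)) (i : Fin d) :
    Fin.natAdd d i ∈ EE q ↔ i ∈ q.2 := by
  simp only [EE, mem_union, mem_map, Fin.castAddEmb_apply, Fin.natAddEmb_apply]
  constructor
  · rintro (⟨j, hj, h⟩ | ⟨j, hj, h⟩)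
    · exfalso
      have := congrArg Fin.val h
      simp only [Fin.val_natAdd, Fin.val_castAdd] at this
      omega
    · have h1 := Fin.natAdd_injective d d h
      rwa [← h1]
  · intro h
    exact Or.inr ⟨i, h, rfl⟩

private theorem EE_injective {d : ℕ} : Function.Injective (EE (d := d)) := by
  intro q q' h
  refine Prod.ext ?_ ?_
  · ext i
    rw [← mem_EE_left q i, ← mem_EE_left q' i, h]
  · ext i
    rw [← mem_EE_right q i, ← mem_EE_right q' i, h]

private theorem off_EE {d : ℕ} (W : ℕ) (b b' : Fin d → ℕ) (q : Finset (Fin d) × Finset (Fin d)) :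
    off W (Fin.append b b') (EE q) = off W b q.1 + off W b' q.2 := by
  unfold off EE
  rw [sum_union, sum_map, sum_map, mul_add]
  · simp only [Fin.castAddEmb_apply, Fin.natAddEmb_apply, Fin.append_left, Fin.append_right]
  · rw [disjoint_left]
    intro a ha hb
    rw [mem_map] at ha hb
    obtain ⟨i, -, rfl⟩ := ha
    obtain ⟨j, -, h⟩ := hb
    have := congrArg Fin.val h
    simp only [Fin.castAddEmb_apply, Fin.natAddEmb_apply, Fin.val_natAdd, Fin.val_castAdd] at this
    omega

private theorem append_injective {d : ℕ} {b b' c c' : Fin d → ℕ} (h : Fin.append b b' = Fin.append c c') :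
    b = c ∧ b' = c' := by
  constructor
  · funext i
    have := congrFun h (Fin.castAdd d i)
    simpa using this
  · funext i
    have := congrFun h (Fin.natAdd d i)
    rwa [Fin.append_right, Fin.append_right] at this

/-- The pairs of traces. -/
private def QQ {d : ℕ} (s₀ : Finset (Fin d)) : Finset (Finset (Fin d) × Finset (Fin d)) :=
  (univ ×ˢ {s₀}) ∪ ({s₀} ×ˢ univ.erase s₀)

private theorem card_QQ {d : ℕ} (s₀ : Finset (Fin d)) : (QQ s₀).card = 2 ^ (d + 1) - 1 := by
  unfold QQ
  rw [card_union_of_disjoint]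
  · rw [card_product, card_product, card_singleton, card_erase_of_mem (mem_univ _), card_univ,
      Fintype.card_finset, Fintype.card_fin, pow_succ]
    have : 1 ≤ 2 ^ d := Nat.one_le_two_pow
    omega
  · rw [disjoint_left]
    rintro ⟨s, s'⟩ h h'
    rw [mem_product] at h h'
    exact (mem_erase.1 h'.2).1 (mem_singleton.1 h.2)

theorem shared (d W : ℕ) (hW : 0 < W) : ∃ C : ℝ, 0 < C ∧ ∃ P₀ : ℕ, ∀ P : ℕ, P₀ ≤ P → ∀ r : ℕ,
    ∀ s₀ : Finset (Fin d),
      ∑ t ∈ AP P W r, (((bx d (P / W)).filter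
        (fun b => ∃ p ∈ cub (AP P W r) W b, p + off W b s₀ = t)).card : ℝ) ^ 2 ≤
        C * P ^ (2 * d + 1) / (Real.log P) ^ (2 ^ (d + 1) - 1) := by
  obtain ⟨C, hC, P₀, hP₀⟩ := tuples (d + d) W (2 ^ (d + 1) - 1) hW
  refine ⟨C, hC, P₀, fun P hP r s₀ => ?_⟩
  have key := hP₀ P hP ((QQ s₀).image EE) (by rw [card_image_of_injective _ EE_injective, card_QQ])
  have e0 : 2 * d + 1 = d + d + 1 := by ring
  rw [e0]
  refine le_trans ?_ key
  have hAP : ∀ q ∈ AP P W r, P < q ∧ q ≤ 2 * P ∧ q.Prime := by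
    intro q hq
    rw [AP, mem_filter, dyP, mem_filter, mem_Ioc] at hq
    exact ⟨hq.1.1.1, hq.1.1.2, hq.1.2⟩
  set B : ℕ → Finset (Fin d → ℕ) := fun t => (bx d (P / W)).filter
        (fun b => ∃ p ∈ cub (AP P W r) W b, p + off W b s₀ = t) with hB
  set F : (Fin (d + d) → ℕ) → Finset ℕ := fun v => (Icc 1 (2 * P)).filter
    (fun n => ∀ T ∈ (QQ s₀).image EE, (n + off W v T).Prime) with hF
  have h1 : ∑ t ∈ AP P W r, ((B t).card : ℝ) ^ 2 =
      (((AP P W r).sigma fun t => B t ×ˢ B t).card : ℝ) := by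
    rw [card_sigma, Nat.cast_sum]
    refine sum_congr rfl fun t _ => ?_
    rw [card_product, Nat.cast_mul, sq]
  have h2 : ∑ v ∈ bx (d + d) (P / W), ((F v).card : ℝ) = (((bx (d + d) (P / W)).sigma F).card : ℝ) := by
    rw [card_sigma, Nat.cast_sum]
  rw [h1, h2, Nat.cast_le]
  refine card_le_card_of_injOn
    (fun x : (_ : ℕ) × ((Fin d → ℕ) × (Fin d → ℕ)) =>
      (⟨Fin.append x.2.1 x.2.2, x.1 - off W x.2.1 s₀ - off W x.2.2 s₀⟩ : (_ : Fin (d + d) → ℕ) × ℕ)) ?_ ?_
  · rintro ⟨t, b, b'⟩ hx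
    rw [mem_coe, mem_sigma, mem_product] at hx
    obtain ⟨ht, hb, hb'⟩ := hx
    simp only at ht hb hb' ⊢
    rw [hB] at hb hb'
    simp only [mem_filter] at hb hb'
    obtain ⟨hb, p, hp, hpt⟩ := hb
    obtain ⟨hb', p', hp', hpt'⟩ := hb'
    rw [cub, mem_filter] at hp hp'
    obtain ⟨hpA, hpc⟩ := hp
    obtain ⟨hpA', hpc'⟩ := hp'
    have a1 := hAP p hpA
    have a2 := hAP p' hpA'
    have a3 := hAP t ht
    rw [mem_coe, mem_sigma]
    simp only
    refine ⟨?_, ?_⟩
    · rw [mem_bx] at hb hb' ⊢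
      intro i
      refine Fin.addCases (fun j => ?_) (fun j => ?_) i
      · rw [Fin.append_left]
        exact hb j
      · rw [Fin.append_right]
        exact hb' j
    · rw [hF]
      simp only [mem_filter, mem_Icc]
      refine ⟨by omega, ?_⟩
      intro T hT
      rw [mem_image] at hT
      obtain ⟨q, hq, rfl⟩ := hT
      rw [off_EE]
      rw [QQ, mem_union, mem_product, mem_product, mem_singleton, mem_singleton] at hq
      rcases hq with ⟨-, hq⟩ | ⟨hq, -⟩
      · have h3 := (hAP _ (hpc q.1)).2.2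
        have h4 : t - off W b s₀ - off W b' s₀ + (off W b q.1 + off W b' q.2) = p + off W b q.1 := by
          rw [hq]
          omega
        rw [h4]
        exact h3
      · have h3 := (hAP _ (hpc' q.2)).2.2
        have h4 : t - off W b s₀ - off W b' s₀ + (off W b q.1 + off W b' q.2) = p' + off W b' q.2 := by
          rw [hq]
          omega
        rw [h4]
        exact h3
  · rintro ⟨t, b, b'⟩ hx ⟨u, c, c'⟩ hy h
    rw [mem_coe, mem_sigma, mem_product] at hx hy
    obtain ⟨ht, hb, hb'⟩ := hx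
    obtain ⟨hu, hc, hc'⟩ := hy
    simp only at ht hb hb' hu hc hc'
    rw [hB] at hb hb' hc hc'
    simp only [mem_filter] at hb hb' hc hc'
    obtain ⟨hb, p, hp, hpt⟩ := hb
    obtain ⟨hb', p', hp', hpt'⟩ := hb'
    obtain ⟨hc, q, hq, hqt⟩ := hc
    obtain ⟨hc', q', hq', hqt'⟩ := hc'
    have a1 := hAP p (mem_filter.1 hp).1
    have a2 := hAP p' (mem_filter.1 hp').1
    have a3 := hAP t ht
    have a4 := hAP q (mem_filter.1 hq).1
    have a5 := hAP q' (mem_filter.1 hq').1
    have a6 := hAP u hu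
    rw [Sigma.mk.injEq] at h
    obtain ⟨h3, h4⟩ := h
    obtain ⟨rfl, rfl⟩ := append_injective h3
    have h5 : t - off W b s₀ - off W b' s₀ = u - off W b s₀ - off W b' s₀ := eq_of_heq h4
    have h6 : t = u := by omega
    rw [h6]

end UGB
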