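import Pool.Agent.Helper72.UGB.Cls
import Pool.Agent.Helper72.UGB.Second
import Pool.Agent.Helper72.UGB.Shared
import Pool.Agent.Helper72.UGB.GcsW
import Pool.Agent.Helper72.UGB.Sel
import Pool.Agent.Helper33.MRB.B05

/-!
# UGB-10: block B of project UG, the prime cubes

Let `P` be large, `N = P / W`, `S = bx d N` (`|S| = N ^ d`, `(P / (2 W)) ^ d ≤ N ^ d ≤ P ^ d`), `l = Real.log P`,
`q₀ = P / l ^ (2 ^ d)`. By `exists_class` choose `r`, `A = AP P W r`: `|dyP P| ≤ 2 W |A|`, `∑_A e ≤ 2 δ |A|`.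
(1) `|A| ≥ |dyP P| / (2 W) ≥ c₀ P / (2 W l)` (`MRB.cheb_dyadic`), and `|A| ≤ |dyP P| ≤ C₀ P / l` (`tuples 0 1 1` with `𝒯 = {∅}`:
`bx 0 P` has one element; the primes up to `2 P` are at most `C₀ P / l`).
(2) `Q b = |cub A W b|`. `gcsW`: `∑_S Q ≥ c |A| ^ (2^d) P ^ (d + 1) / P ^ (2 ^ d) - C P ^ d ≥ c₁' P ^ (d + 1) / l ^ (2 ^ d)` for large `P`
(`l ^ (2 ^ d) = o(P)`), i.e. `∑_S Q ≥ c₁ q₀ |S|`.
(3) `second`: `∑_S Q ^ 2 ≤ C P ^ (d + 2) / l ^ (2 ^ (d + 1)) = C q₀ ^ 2 P ^ d ≤ C₁ q₀ ^ 2 |S|`.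
(4) `F b = ∑_{p ∈ cub A W b} ∑_s e (p + off W b s)`. For fixed `s`: `∑_b ∑_{p ∈ cub A W b} e (p + off W b s) = ∑_{t ∈ A} e t R_s(t)`,
`R_s(t) = |{b ∈ S : ∃ p ∈ cub A W b, p + off W b s = t}|` (for given `b`, `t` there is one `p`). Cauchy-Schwarz, `e ^ 2 ≤ e`, (1) and
`shared`: `≤ (2 δ |A|) ^ (1/2) (C P ^ (2d+1) / l ^ (2 ^ (d+1) - 1)) ^ (1/2) ≤ C' √δ P ^ (d+1) / l ^ (2 ^ d)` (the exponents of `l` add up to
`1 + (2 ^ (d+1) - 1) = 2 * 2 ^ d`, the exponents of `P` to `1 + (2 d + 1)`). Sum over the `2 ^ d` sets `s`: `∑_S F ≤ C₂ √δ q₀ |S|`.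
(5) `select` with `η = √δ`: the set `B`; for `b ∈ B`: `F b ≤ C √δ Q b`, so some `p ∈ cub A W b` has `∑_s e (p + off W b s) ≤ C √δ`
(otherwise the sum over the `Q b > 0` elements is larger). `|B| ≥ c |S| ≥ c' P ^ d`.
-/

set_option autoImplicit false

namespace UGB

open Finset MRP

/-- Chebyshev's upper bound, from `tuples`. -/
theorem card_dyP_le : ∃ C : ℝ, 0 < C ∧ ∃ P₀ : ℕ, ∀ P : ℕ, P₀ ≤ P →
    ((dyP P).card : ℝ) ≤ C * P / Real.log P := by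
  obtain ⟨C, hC, P₀, h⟩ := tuples 0 1 1 one_pos
  refine ⟨C, hC, P₀, fun P hP => ?_⟩
  have h1 := h P hP {∅} (by simp)
  have h2 : ((dyP P).card : ℝ) ≤ ∑ v ∈ bx 0 (P / 1), ((((Icc 1 (2 * P)).filter
      (fun n => ∀ T ∈ ({∅} : Finset (Finset (Fin 0))), (n + off 1 v T).Prime)).card : ℕ) : ℝ) := by
    have hv : (fun i => Fin.elim0 i : Fin 0 → ℕ) ∈ bx 0 (P / 1) := mem_bx.2 (fun i => i.elim0)
    refine le_trans ?_ (Finset.single_le_sum (f := fun v : Fin 0 → ℕ =>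
      ((((Icc 1 (2 * P)).filter
      (fun n => ∀ T ∈ ({∅} : Finset (Finset (Fin 0))), (n + off 1 v T).Prime)).card : ℕ) : ℝ))
      (fun v _ => by positivity) hv)
    have : (dyP P) ⊆ ((Icc 1 (2 * P)).filter
      (fun n => ∀ T ∈ ({∅} : Finset (Finset (Fin 0))),
        (n + off 1 (fun i => Fin.elim0 i : Fin 0 → ℕ) T).Prime)) := by
      intro p hp
      have hp' := Finset.mem_filter.1 hp
      have hp1 := Finset.mem_Ioc.1 hp'.1
      refine Finset.mem_filter.2 ⟨Finset.mem_Icc.2 ⟨by omega, hp1.2⟩, ?_⟩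
      intro T hT
      rw [Finset.mem_singleton.1 hT]
      simpa [off] using hp'.2
    exact_mod_cast Finset.card_le_card this
  simpa using h2.trans h1

/-- For large `P` any power of `log P` is at most `κ * P`. -/
theorem log_pow_le (m : ℕ) (κ : ℝ) (hκ : 0 < κ) : ∃ P₀ : ℕ, ∀ P : ℕ, P₀ ≤ P →
    (Real.log P) ^ m ≤ κ * P := by
  have h := (Real.isLittleO_pow_log_id_atTop (n := m)).bound hκ
  have h2 := (tendsto_natCast_atTop_atTop (R := ℝ)).eventually h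
  obtain ⟨P₀, hP₀⟩ := Filter.eventually_atTop.1 h2
  refine ⟨P₀, fun P hP => ?_⟩
  have h3 := hP₀ P hP
  rw [Real.norm_eq_abs, id, Real.norm_eq_abs, abs_of_nonneg (Nat.cast_nonneg (α := ℝ) P)] at h3
  exact (le_abs_self _).trans h3

/-- For fixed `s`, the sum over the cubes of the weight of the vertex `s`. -/
theorem sum_vertex {d : ℕ} (A : Finset ℕ) (W : ℕ) (S : Finset (Fin d → ℕ)) (e : ℕ → ℝ)
    (s : Finset (Fin d)) :
    ∑ b ∈ S, ∑ p ∈ cub A W b, e (p + off W b s) =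
      ∑ t ∈ A, e t * ((S.filter (fun b => ∃ p ∈ cub A W b, p + off W b s = t)).card : ℝ) := by
  have h1 : ∀ b ∈ S, ∑ p ∈ cub A W b, e (p + off W b s) =
      ∑ t ∈ A, if (∃ p ∈ cub A W b, p + off W b s = t) then e t else 0 := by
    intro b _
    rw [← Finset.sum_filter]
    refine Finset.sum_nbij (fun p => p + off W b s) ?_ ?_ ?_ ?_
    · intro p hp
      refine Finset.mem_coe.2 (Finset.mem_filter.2 ⟨?_, p, hp, rfl⟩)
      exact (Finset.mem_filter.1 hp).2 s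
    · intro p _ p' _ h
      exact Nat.add_right_cancel h
    · intro t ht
      obtain ⟨_, p, hp, hpt⟩ := Finset.mem_filter.1 (Finset.mem_coe.1 ht)
      exact ⟨p, hp, hpt⟩
    · intro p _
      rfl
  rw [Finset.sum_congr rfl h1, Finset.sum_comm]
  refine Finset.sum_congr rfl (fun t _ => ?_)
  rw [← Finset.sum_filter, Finset.sum_const, nsmul_eq_mul, mul_comm]

theorem aux_id (C₀ Ch δ P l : ℝ) (hl : l ≠ 0) (d M k : ℕ) (hk : k + 1 = 2 * M) :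
    (2 * C₀ * Ch) * δ * (P / l ^ M * P ^ d) ^ 2 =
      (2 * δ * (C₀ * P / l)) * (Ch * P ^ (2 * d + 1) / l ^ k) := by
  have h1 : l ^ M * l ^ M = l * l ^ k := by
    rw [← pow_add, ← pow_succ', hk]; ring_nf
  have hlM : l ^ M ≠ 0 := pow_ne_zero _ hl
  have hlk : l ^ k ≠ 0 := pow_ne_zero _ hl
  have h2 : (P / l ^ M * P ^ d) ^ 2 = P ^ (2 * d + 2) / (l ^ M * l ^ M) := by
    rw [eq_div_iff (mul_ne_zero hlM hlM)]
    have : P / l ^ M * l ^ M = P := div_mul_cancel₀ P hlM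
    calc (P / l ^ M * P ^ d) ^ 2 * (l ^ M * l ^ M) =
        (P / l ^ M * l ^ M) ^ 2 * (P ^ d) ^ 2 := by ring
      _ = P ^ (2 * d + 2) := by rw [this]; ring
  rw [h2, h1]
  have h3 : (2 * δ * (C₀ * P / l)) * (Ch * P ^ (2 * d + 1) / l ^ k) =
      (2 * C₀ * Ch) * δ * (P ^ (2 * d + 2) / (l * l ^ k)) := by
    have e1 : (2 * δ * (C₀ * P / l)) = (2 * δ * C₀ * P) / l := by ring
    rw [e1, div_mul_div_comm, ← mul_div_assoc]
    congr 1
    ring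
  rw [h3]

theorem cubes (d W : ℕ) (hW : 0 < W) : ∃ c C : ℝ, 0 < c ∧ 0 < C ∧ ∃ P₀ : ℕ, ∀ P : ℕ, P₀ ≤ P →
    ∀ e : ℕ → ℝ, (∀ q, 0 ≤ e q) → (∀ q, e q ≤ 1) → ∀ δ : ℝ, 0 < δ →
      ∑ q ∈ dyP P, e q ≤ δ * (dyP P).card →
        ∃ r < W, ∃ B ⊆ bx d (P / W), c * (P : ℝ) ^ d ≤ (B.card : ℝ) ∧
          ∀ b ∈ B, ∃ p : ℕ, (∀ s : Finset (Fin d), p + off W b s ∈ AP P W r) ∧
            ∑ s : Finset (Fin d), e (p + off W b s) ≤ C * √δ := by
  have hWR : (0 : ℝ) < W := by exact_mod_cast hW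
  obtain ⟨c₀, hc₀, hcheb⟩ := MRB.cheb_dyadic
  obtain ⟨C₀, hC₀, P₁, hup⟩ := card_dyP_le
  obtain ⟨cg, Cg, hcg, hCg, hgcs⟩ := gcsW d W hW
  obtain ⟨Cs, hCs, P₂, hsec⟩ := second d W hW
  obtain ⟨Ch, hCh, P₃, hsh⟩ := shared d W hW
  set M : ℕ := 2 ^ d with hM
  set c' : ℝ := cg * (c₀ / (2 * W)) ^ M with hc'
  have hc'pos : 0 < c' := by positivity
  obtain ⟨P₄, hlog⟩ := log_pow_le M (c' / (2 * Cg)) (by positivity)
  set c₁ : ℝ := c' / 2 with hc₁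
  have hc₁pos : 0 < c₁ := by positivity
  set C₁ : ℝ := Cs * (2 * W) ^ d with hC₁
  have hC₁pos : 0 < C₁ := by positivity
  set C₂ : ℝ := 2 ^ d * √(2 * C₀ * Ch) * (2 * W) ^ d with hC₂
  have hC₂pos : 0 < C₂ := by positivity
  refine ⟨c₁ ^ 2 / (8 * C₁) / (2 * W) ^ d, 16 * C₁ * C₂ / c₁ ^ 3, by positivity, by positivity,
    P₁ + P₂ + P₃ + P₄ + W + 3, ?_⟩
  intro P hP e he0 he1 δ hδ hsum
  have hP3 : 3 ≤ P := by omega
  have hPR : (3 : ℝ) ≤ P := by exact_mod_cast hP3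
  have hPpos : (0 : ℝ) < P := by linarith
  have hl : 0 < Real.log P := Real.log_pos (by linarith)
  set l : ℝ := Real.log P with hldef
  have hPW : W ≤ P := by omega
  set N : ℕ := P / W with hN
  have hN1 : 1 ≤ N := (Nat.one_le_div_iff hW).2 hPW
  have hNP : N ≤ P := Nat.div_le_self P W
  have hNPR : (N : ℝ) ≤ P := by exact_mod_cast hNP
  have hP2WN : (P : ℝ) ≤ 2 * W * N := by
    have h1 : P < W * (N + 1) := by
      have := Nat.lt_div_mul_add hW (a := P)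
      rw [← hN] at this
      calc P < N * W + W := this
        _ = W * (N + 1) := by ring
    have h2 : W * (N + 1) ≤ 2 * W * N := by nlinarith
    exact_mod_cast (h1.le.trans h2)
  set S : Finset (Fin d → ℕ) := bx d N with hS
  have hScard : (S.card : ℝ) = (N : ℝ) ^ d := by
    rw [hS, card_bx]; push_cast; ring
  have hSle : (S.card : ℝ) ≤ (P : ℝ) ^ d := by
    rw [hScard]; gcongr
  have hSge : (P : ℝ) ^ d ≤ (2 * W) ^ d * S.card := by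
    rw [hScard, ← mul_pow]; gcongr
  obtain ⟨r, hr, hn2, hA⟩ := exists_class W hW P (by omega) e he0 δ hδ hsum
  refine ⟨r, hr, ?_⟩
  set A : Finset ℕ := AP P W r with hAdef
  set a : ℝ := (A.card : ℝ) with ha
  have ha0 : 0 ≤ a := Nat.cast_nonneg _
  have hAdy : A ⊆ dyP P := Finset.filter_subset _ _
  have han : a ≤ (dyP P).card := by
    rw [ha]; exact_mod_cast Finset.card_le_card hAdy
  have ha_up : a ≤ C₀ * P / l := han.trans (hup P (by omega))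
  have ha_low : c₀ / (2 * W) * (P / l) ≤ a := by
    have h1 := hcheb P (by omega)
    have h2 : c₀ * P / l ≤ 2 * W * a := h1.trans hn2
    have h3 : c₀ / (2 * W) * (P / l) = (c₀ * P / l) / (2 * W) := by
      field_simp
    rw [h3, div_le_iff₀ (by positivity)]
    linarith
  set q₀ : ℝ := P / l ^ M with hq₀
  have hq₀pos : 0 < q₀ := by positivity
  -- (2)
  have h2 : c₁ * q₀ * S.card ≤ ∑ b ∈ S, ((cub A W b).card : ℝ) := by
    have hg := hgcs P hPW r A (fun q hq => (Finset.mem_filter.1 (hAdy hq)).1)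
      (fun q hq => (Finset.mem_filter.1 hq).2)
    have e1 : (c₀ / (2 * W) * (P / l)) ^ M ≤ a ^ M := by gcongr
    have e2 : cg * (c₀ / (2 * W) * (P / l)) ^ M * (P : ℝ) ^ (d + 1) ≤
        ((∑ b ∈ S, ((cub A W b).card : ℝ)) + Cg * (P : ℝ) ^ d) * (P : ℝ) ^ M := by
      refine le_trans ?_ hg
      gcongr
    have e3 : cg * (c₀ / (2 * W) * (P / l)) ^ M * (P : ℝ) ^ (d + 1) =
        (c' * (q₀ * (P : ℝ) ^ d)) * (P : ℝ) ^ M := by
      rw [hc', hq₀, mul_pow, div_pow (P : ℝ) l M]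
      ring
    rw [e3] at e2
    have e4 := le_of_mul_le_mul_right e2 (by positivity : (0 : ℝ) < (P : ℝ) ^ M)
    have e5 : Cg * (P : ℝ) ^ d ≤ c' / 2 * (q₀ * (P : ℝ) ^ d) := by
      have hl1 := hlog P (by omega)
      have hlM : 0 < l ^ M := by positivity
      have : Cg ≤ c' / 2 * q₀ := by
        rw [hq₀, ← mul_div_assoc, le_div_iff₀ hlM]
        calc Cg * l ^ M ≤ Cg * (c' / (2 * Cg) * P) := by gcongr
          _ = c' / 2 * P := by field_simp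
      calc Cg * (P : ℝ) ^ d ≤ (c' / 2 * q₀) * (P : ℝ) ^ d := by gcongr
        _ = _ := by ring
    calc c₁ * q₀ * S.card ≤ c₁ * q₀ * (P : ℝ) ^ d := by gcongr
      _ = c' * (q₀ * (P : ℝ) ^ d) - c' / 2 * (q₀ * (P : ℝ) ^ d) := by rw [hc₁]; ring
      _ ≤ ∑ b ∈ S, ((cub A W b).card : ℝ) := by linarith
  -- (3)
  have hM2 : 2 ^ (d + 1) = 2 * M := by rw [hM]; ring
  have h3 : ∑ b ∈ S, ((cub A W b).card : ℝ) ^ 2 ≤ C₁ * q₀ ^ 2 * S.card := by
    have hs := hsec P (by omega) r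
    refine hs.trans ?_
    rw [hM2]
    have e1 : Cs * (P : ℝ) ^ (d + 2) / l ^ (2 * M) = Cs * q₀ ^ 2 * (P : ℝ) ^ d := by
      rw [hq₀, div_pow, ← pow_mul, mul_comm M 2]
      ring
    rw [e1]
    calc Cs * q₀ ^ 2 * (P : ℝ) ^ d ≤ Cs * q₀ ^ 2 * ((2 * W) ^ d * S.card) := by gcongr
      _ = C₁ * q₀ ^ 2 * S.card := by rw [hC₁]; ring
  -- (4)
  set F : (Fin d → ℕ) → ℝ := fun b => ∑ p ∈ cub A W b, ∑ s : Finset (Fin d), e (p + off W b s)
    with hF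
  have hM1 : 1 ≤ M := Nat.one_le_two_pow
  have h4s : ∀ s : Finset (Fin d), ∑ b ∈ S, ∑ p ∈ cub A W b, e (p + off W b s) ≤
      √(2 * C₀ * Ch) * √δ * (q₀ * (P : ℝ) ^ d) := by
    intro s
    rw [sum_vertex]
    set R : ℕ → ℝ := fun t =>
      ((S.filter (fun b => ∃ p ∈ cub A W b, p + off W b s = t)).card : ℝ) with hR
    have hcs : (∑ t ∈ A, e t * R t) ^ 2 ≤ (∑ t ∈ A, e t ^ 2) * ∑ t ∈ A, R t ^ 2 :=
      Finset.sum_mul_sq_le_sq_mul_sq A e R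
    have he2 : ∑ t ∈ A, e t ^ 2 ≤ 2 * δ * (C₀ * P / l) := by
      calc ∑ t ∈ A, e t ^ 2 ≤ ∑ t ∈ A, e t := by
            refine Finset.sum_le_sum (fun t _ => ?_)
            have := he0 t
            have := he1 t
            nlinarith
        _ ≤ 2 * δ * a := hA
        _ ≤ 2 * δ * (C₀ * P / l) := by gcongr
    have hR2 : ∑ t ∈ A, R t ^ 2 ≤ Ch * (P : ℝ) ^ (2 * d + 1) / l ^ (2 ^ (d + 1) - 1) :=
      hsh P (by omega) r s
    have hprod : (∑ t ∈ A, e t * R t) ^ 2 ≤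
        (√(2 * C₀ * Ch) * √δ * (q₀ * (P : ℝ) ^ d)) ^ 2 := by
      refine hcs.trans ?_
      have e1 : (√(2 * C₀ * Ch) * √δ * (q₀ * (P : ℝ) ^ d)) ^ 2 =
          (2 * C₀ * Ch) * δ * (q₀ * (P : ℝ) ^ d) ^ 2 := by
        rw [mul_pow, mul_pow, Real.sq_sqrt (by positivity), Real.sq_sqrt hδ.le]
      rw [e1]
      have e2 : (2 * C₀ * Ch) * δ * (q₀ * (P : ℝ) ^ d) ^ 2 =
          (2 * δ * (C₀ * P / l)) * (Ch * (P : ℝ) ^ (2 * d + 1) / l ^ (2 ^ (d + 1) - 1)) := by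
        rw [hq₀]
        exact aux_id C₀ Ch δ P l hl.ne' d M (2 ^ (d + 1) - 1) (by rw [hM2]; omega)
      rw [e2]
      have hn1 : 0 ≤ ∑ t ∈ A, R t ^ 2 := Finset.sum_nonneg (fun t _ => sq_nonneg _)
      have hn2 : 0 ≤ 2 * δ * (C₀ * P / l) := by positivity
      exact mul_le_mul he2 hR2 hn1 hn2
    have hn3 : 0 ≤ √(2 * C₀ * Ch) * √δ * (q₀ * (P : ℝ) ^ d) := by positivity
    exact le_of_sq_le_sq hprod hn3
  have h4 : ∑ b ∈ S, F b ≤ C₂ * √δ * q₀ * S.card := by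
    have e1 : ∑ b ∈ S, F b = ∑ s : Finset (Fin d), ∑ b ∈ S, ∑ p ∈ cub A W b,
        e (p + off W b s) := by
      rw [Finset.sum_comm]
      refine Finset.sum_congr rfl (fun b _ => ?_)
      rw [hF, Finset.sum_comm]
    rw [e1]
    calc ∑ s : Finset (Fin d), ∑ b ∈ S, ∑ p ∈ cub A W b, e (p + off W b s) ≤
          ∑ _s : Finset (Fin d), √(2 * C₀ * Ch) * √δ * (q₀ * (P : ℝ) ^ d) :=
          Finset.sum_le_sum (fun s _ => h4s s)
      _ = 2 ^ d * (√(2 * C₀ * Ch) * √δ * (q₀ * (P : ℝ) ^ d)) := by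
          rw [Finset.sum_const, nsmul_eq_mul, Finset.card_univ, Fintype.card_finset,
            Fintype.card_fin]
          push_cast
          ring
      _ ≤ 2 ^ d * (√(2 * C₀ * Ch) * √δ * (q₀ * ((2 * W) ^ d * S.card))) := by gcongr
      _ = C₂ * √δ * q₀ * S.card := by rw [hC₂]; ring
  -- (5)
  have hFn : ∀ b ∈ S, 0 ≤ F b := fun b _ =>
    Finset.sum_nonneg (fun p _ => Finset.sum_nonneg (fun s _ => he0 _))
  obtain ⟨B, hBS, hBc, hB⟩ := select S (fun b => ((cub A W b).card : ℝ)) F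
    (fun b _ => Nat.cast_nonneg _) hFn q₀ c₁ C₁ C₂ (√δ) hq₀pos hc₁pos hC₁pos hC₂pos
    (Real.sqrt_pos.2 hδ) h2 h3 h4
  refine ⟨B, hBS, ?_, ?_⟩
  · refine le_trans ?_ hBc
    have hWd : (0 : ℝ) < (2 * W) ^ d := by positivity
    calc c₁ ^ 2 / (8 * C₁) / (2 * W) ^ d * (P : ℝ) ^ d ≤
        c₁ ^ 2 / (8 * C₁) / (2 * W) ^ d * ((2 * W) ^ d * S.card) := by gcongr
      _ = c₁ ^ 2 / (8 * C₁) * S.card := by field_simp
  · intro b hb
    obtain ⟨hQpos, hFb⟩ := hB b hb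
    have hQne : (cub A W b).Nonempty := by
      rw [← Finset.card_pos]; exact_mod_cast hQpos
    set K : ℝ := 16 * C₁ * C₂ / c₁ ^ 3 * √δ with hK
    have hle : ∑ p ∈ cub A W b, ∑ s : Finset (Fin d), e (p + off W b s) ≤
        ∑ _p ∈ cub A W b, K := by
      rw [Finset.sum_const, nsmul_eq_mul]
      calc ∑ p ∈ cub A W b, ∑ s : Finset (Fin d), e (p + off W b s) = F b := rfl
        _ ≤ 16 * C₁ * C₂ / c₁ ^ 3 * √δ * (cub A W b).card := hFb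
        _ = (cub A W b).card * K := by rw [hK]; ring
    obtain ⟨p, hp, hpK⟩ := Finset.exists_le_of_sum_le hQne hle
    exact ⟨p, (Finset.mem_filter.1 hp).2, hpK⟩

end UGB
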