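import Mathlib
import Pool.Agent.Helper6.MR.Iface

/-!
# Project UG (MP_e6fa8b_nt), blocks B and C: prime cubes and the descent (definitions)

`MRP.dyP P` is the set of primes in `(P, 2P]`. A cube with sides `W * b i` has the vertices
`p + W * ∑ i ∈ s, b i`, `s` a subset of `Fin d`.
-/

set_option autoImplicit false

namespace UGB

open Finset MRP

/-- The box `[1, N]^d`. -/
def bx (d N : ℕ) : Finset (Fin d → ℕ) := Fintype.piFinset (fun _ => Icc 1 N)

theorem mem_bx {d N : ℕ} {b : Fin d → ℕ} : b ∈ bx d N ↔ ∀ i, 1 ≤ b i ∧ b i ≤ N := by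
  simp [bx]

theorem card_bx (d N : ℕ) : (bx d N).card = N ^ d := by
  simp [bx]

/-- The offset of the vertex `s`. -/
def off {d : ℕ} (W : ℕ) (b : Fin d → ℕ) (s : Finset (Fin d)) : ℕ := W * ∑ i ∈ s, b i

/-- The base points of the cubes with sides `W * b i` contained in `A`. -/
def cub {d : ℕ} (A : Finset ℕ) (W : ℕ) (b : Fin d → ℕ) : Finset ℕ :=
  A.filter (fun p => ∀ s : Finset (Fin d), p + off W b s ∈ A)

/-- The primes in `(P, 2P]` in the residue class `r` modulo `W`. -/
def AP (P W r : ℕ) : Finset ℕ := (dyP P).filter (fun q => q % W = r)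

end UGB
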