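import Pool.Agent.Helper72.UGB.Defs
import Pool.Agent.Helper33.MRB.B05

/-!
# UGB-1: choice of a residue class

By contradiction. Let `n = (dyP P).card ≥ 1` (`MRB.one_le_card_dyP` in `Pool/Agent/Helper33/MRB/B05.lean`, or Bertrand's
postulate `Nat.exists_prime_lt_and_le_two_mul`) and let `G` be the set of the `r < W` with `n ≤ 2 W |AP P W r|`. The sets `AP P W r`,
`r < W`, partition `dyP P` (`Finset.card_eq_sum_card_fiberwise`, `Finset.sum_fiberwise_of_maps_to`). Each `r ∉ G` has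
`|AP| < n / (2 W)`, hence `∑_{r ∉ G} |AP| ≤ n / 2` and `∑_{r ∈ G} |AP| ≥ n / 2 > 0`, so `G` is nonempty, and `|AP P W r| > 0` for `r ∈ G`. If
the claim fails then `∑_{AP} e > 2 δ |AP|` for each `r ∈ G`, so
`δ n ≥ ∑_{dyP P} e ≥ ∑_{r ∈ G} ∑_{AP} e > 2 δ ∑_{r ∈ G} |AP| ≥ δ n`, a contradiction.
-/

set_option autoImplicit false

namespace UGB

open Finset MRP

theorem exists_class (W : ℕ) (hW : 0 < W) (P : ℕ) (hP : 1 ≤ P) (e : ℕ → ℝ) (he : ∀ q, 0 ≤ e q)
    (δ : ℝ) (hδ : 0 < δ) (h : ∑ q ∈ dyP P, e q ≤ δ * (dyP P).card) :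
    ∃ r < W, ((dyP P).card : ℝ) ≤ 2 * W * (AP P W r).card ∧
      ∑ q ∈ AP P W r, e q ≤ 2 * δ * (AP P W r).card := by
  classical
  by_contra hcon
  push Not at hcon
  have hn : (0 : ℝ) < ((dyP P).card : ℝ) := by
    exact_mod_cast MRB.one_le_card_dyP P hP
  have hmap : ∀ q ∈ dyP P, q % W ∈ range W := fun q _ => Finset.mem_range.2 (Nat.mod_lt _ hW)
  have hcard : ((dyP P).card : ℝ) = ∑ r ∈ range W, ((AP P W r).card : ℝ) := by
    have := Finset.card_eq_sum_card_fiberwise hmap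
    rw [this]
    push_cast
    rfl
  have hsum : ∑ q ∈ dyP P, e q = ∑ r ∈ range W, ∑ q ∈ AP P W r, e q :=
    (Finset.sum_fiberwise_of_maps_to hmap e).symm
  have hWR : (0 : ℝ) < W := by exact_mod_cast hW
  -- each class satisfies `2 δ |AP| ≤ ∑ e + δ |dyP| / W`
  have key : ∀ r ∈ range W, 2 * δ * ((AP P W r).card : ℝ) ≤
      ∑ q ∈ AP P W r, e q + δ * ((dyP P).card : ℝ) / W := by
    intro r hr
    have hr' := Finset.mem_range.1 hr
    have hs : 0 ≤ ∑ q ∈ AP P W r, e q := Finset.sum_nonneg fun q _ => he q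
    by_cases hc : ((dyP P).card : ℝ) ≤ 2 * W * (AP P W r).card
    · have := hcon r hr' hc
      have h2 : 0 ≤ δ * ((dyP P).card : ℝ) / W := by positivity
      linarith
    · push Not at hc
      have h2 : 2 * δ * ((AP P W r).card : ℝ) ≤ δ * ((dyP P).card : ℝ) / W := by
        rw [le_div_iff₀ hWR]
        nlinarith
      linarith
  -- if all classes were equalities we would still have a strict inequality somewhere
  have hex : ∃ r ∈ range W, ((dyP P).card : ℝ) ≤ 2 * W * (AP P W r).card := by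
    by_contra hno
    push Not at hno
    have h3 : 2 * W * ((dyP P).card : ℝ) < W * ((dyP P).card : ℝ) := by
      calc 2 * W * ((dyP P).card : ℝ) = ∑ r ∈ range W, 2 * W * ((AP P W r).card : ℝ) := by
            rw [hcard, Finset.mul_sum]
        _ < ∑ _r ∈ range W, ((dyP P).card : ℝ) :=
            Finset.sum_lt_sum_of_nonempty (Finset.nonempty_range_iff.2 hW.ne') hno
        _ = W * ((dyP P).card : ℝ) := by
            rw [Finset.sum_const, Finset.card_range, nsmul_eq_mul]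
    nlinarith
  obtain ⟨r₀, hr₀, hc₀⟩ := hex
  have hstrict : 2 * δ * ((AP P W r₀).card : ℝ) <
      ∑ q ∈ AP P W r₀, e q + δ * ((dyP P).card : ℝ) / W := by
    have := hcon r₀ (Finset.mem_range.1 hr₀) hc₀
    have h2 : 0 < δ * ((dyP P).card : ℝ) / W := by positivity
    linarith
  have h4 : ∑ r ∈ range W, 2 * δ * ((AP P W r).card : ℝ) <
      ∑ r ∈ range W, (∑ q ∈ AP P W r, e q + δ * ((dyP P).card : ℝ) / W) :=
    Finset.sum_lt_sum key ⟨r₀, hr₀, hstrict⟩
  rw [← Finset.mul_sum, ← hcard, Finset.sum_add_distrib, ← hsum, Finset.sum_const,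
    Finset.card_range, nsmul_eq_mul] at h4
  have h5 : (W : ℝ) * (δ * ((dyP P).card : ℝ) / W) = δ * ((dyP P).card : ℝ) := by
    field_simp
  rw [h5] at h4
  linarith

end UGB
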