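import Pool.Agent.Helper72.UGB.Defs

/-!
# UGB-3: coincidences of two subset sums

Choose `i₀` in exactly one of `T`, `T'`. If `∑_T v = ∑_{T'} v`, the coordinate `v i₀` is determined by the others, so the map
`(v, x) ↦ Function.update v i₀ x` is injective on the set of these `v` times `[1, N]`, and its image is contained in `bx D N`,
which has `N ^ D` elements. Stated without subtraction.
-/

set_option autoImplicit false

namespace UGB

open Finset MRP

theorem coin_aux {D : ℕ} {T T' : Finset (Fin D)} {i : Fin D} (h1 : i ∈ T) (h2 : i ∉ T')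
    {v w : Fin D → ℕ} (hv : ∑ j ∈ T, v j = ∑ j ∈ T', v j) (hw : ∑ j ∈ T, w j = ∑ j ∈ T', w j)
    (h : ∀ j, j ≠ i → v j = w j) : v = w := by
  have e1 : ∑ j ∈ T', v j = ∑ j ∈ T', w j :=
    Finset.sum_congr rfl fun j hj => h j (fun e => h2 (e ▸ hj))
  have e2 : ∑ j ∈ T.erase i, v j = ∑ j ∈ T.erase i, w j :=
    Finset.sum_congr rfl fun j hj => h j (Finset.ne_of_mem_erase hj)
  have e3 := Finset.add_sum_erase T v h1
  have e4 := Finset.add_sum_erase T w h1
  have e5 : v i = w i := by omega
  funext j
  by_cases hj : j = i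
  · rw [hj, e5]
  · exact h j hj

theorem coin (D N : ℕ) (T T' : Finset (Fin D)) (hT : T ≠ T') :
    ((bx D N).filter (fun v => ∑ i ∈ T, v i = ∑ i ∈ T', v i)).card * N ≤ N ^ D := by
  obtain ⟨i, hi⟩ : ∃ i, ¬ (i ∈ T ↔ i ∈ T') := by
    by_contra hcon
    push Not at hcon
    exact hT (Finset.ext hcon)
  have key : ∀ v w : Fin D → ℕ, ∑ j ∈ T, v j = ∑ j ∈ T', v j → ∑ j ∈ T, w j = ∑ j ∈ T', w j →
      (∀ j, j ≠ i → v j = w j) → v = w := by
    intro v w hv hw h
    by_cases h1 : i ∈ T
    · have h2 : i ∉ T' := fun h2 => hi ⟨fun _ => h2, fun _ => h1⟩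
      exact coin_aux h1 h2 hv hw h
    · have h2 : i ∈ T' := by
        by_contra h2
        exact hi ⟨fun h => absurd h h1, fun h => absurd h h2⟩
      exact coin_aux h2 h1 hv.symm hw.symm h
  have h3 : (((bx D N).filter (fun v => ∑ i ∈ T, v i = ∑ i ∈ T', v i)) ×ˢ (Icc 1 N)).card ≤
      (bx D N).card := by
    refine Finset.card_le_card_of_injOn (fun q => Function.update q.1 i q.2) ?_ ?_
    · rintro ⟨v, x⟩ hq
      simp only [coe_product, Set.mem_prod, mem_coe, mem_filter, mem_Icc, mem_bx] at hq ⊢
      intro j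
      by_cases hj : j = i
      · subst hj
        simpa using hq.2
      · simpa [Function.update_of_ne hj] using hq.1.1 j
    · rintro ⟨v, x⟩ hq ⟨w, y⟩ hq' he
      simp only [coe_product, Set.mem_prod, mem_coe, mem_filter, mem_Icc, mem_bx] at hq hq'
      have e1 : x = y := by
        have := congrFun he i
        simpa using this
      have e2 : v = w := by
        apply key v w hq.1.2 hq'.1.2
        intro j hj
        have := congrFun he j
        simpa [Function.update_of_ne hj] using this
      rw [e1, e2]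
  rw [Finset.card_product, Nat.card_Icc, card_bx] at h3
  simpa using h3

end UGB
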