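import Pool.Agent.Helper72.UGB.Defs

/-!
# UGB-7: many cubes in dense subsets of an interval

Induction on `d`; `N_d(A) = ∑_{b ∈ bx d N} |cub A 1 b|`.

`d = 0`: `bx 0 N` has one element, `cub A 1 b = A`; `c = C = 1` work: `|A| * N ≤ (|A| + 1) * N`.

Step `d → d + 1`, with `c, C` for `d` and `k = 2 ^ d`. For `1 ≤ x ≤ N` let `A_x = A ∩ (A - x) = {p ∈ A : p + x ∈ A}`. The cubes in `A` with
sides `Fin.cons x b` are the cubes in `A_x` with sides `b` (a subset `T` of `Fin (d + 1)` is `s.map succ` or `insert 0 (s.map succ)`), so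
`N_{d+1}(A) = ∑_{x=1}^N N_d(A_x)`. The number of pairs `p < p'` in `A` is `∑_x |A_x| = (|A| ^ 2 - |A|) / 2` (differences are at most `N` as
`A ⊆ [u, u + N]`). If `|A| ≥ 2` this is `≥ |A| ^ 2 / 4`. By the induction hypothesis for each `A_x` and the power mean inequality
(`pow_sum_div_card_le_sum_pow`: `(∑_{x ≤ N} a_x) ^ k ≤ N ^ (k - 1) ∑ a_x ^ k`, `k ≥ 1`), multiplied by `N ^ k`:
`N ^ k * N_{d+1}(A) ≥ c N ^ (d + 1) ∑_x |A_x| ^ k - C N ^ d * N * N ^ k`, and `∑_x |A_x| ^ k * N ^ k ≥ N (|A| ^ 2 / 4) ^ k`. So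
`N ^ (2k) (N_{d+1}(A) + C N ^ (d + 1)) ≥ c 4 ^ (-k) |A| ^ (2k) N ^ (d + 2)`, which is the claim with `c' = c / 4 ^ k` (`2 k = 2 ^ (d + 1)`).
If `|A| ≤ 1` the left side is `≤ c' N ^ (d + 2) ≤ C' N ^ (d + 1) N ^ (2k)` for `C' ≥ c'` (`2 k ≥ 1`, `N ≥ 1`). Take `C' = max C c'`.
-/

set_option autoImplicit false

namespace UGB

open Finset MRP

theorem gcs_off_cons {d : ℕ} (x : ℕ) (b : Fin d → ℕ) (T : Finset (Fin (d + 1))) :
    off 1 (Fin.cons x b : Fin (d + 1) → ℕ) T =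
      (if (0 : Fin (d + 1)) ∈ T then x else 0) + off 1 b (univ.filter (fun i : Fin d => i.succ ∈ T)) := by
  unfold off
  rw [one_mul, one_mul]
  have h1 : ∑ i ∈ T, (Fin.cons x b : Fin (d + 1) → ℕ) i =
      ∑ i : Fin (d + 1), if i ∈ T then (Fin.cons x b : Fin (d + 1) → ℕ) i else 0 := by
    rw [Finset.sum_ite_mem, Finset.univ_inter]
  rw [h1, Fin.sum_univ_succ]
  simp only [Fin.cons_zero, Fin.cons_succ]
  congr 1
  rw [Finset.sum_filter]

/-- Cubes in `A_x` are the cubes in `A` with an additional side `x`. -/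
theorem gcs_cub_subset {d : ℕ} (A : Finset ℕ) (x : ℕ) (b : Fin d → ℕ) :
    cub (A.filter (fun p => p + x ∈ A)) 1 b ⊆ cub A 1 (Fin.cons x b : Fin (d + 1) → ℕ) := by
  intro p hp
  unfold cub at hp ⊢
  rw [mem_filter] at hp ⊢
  refine ⟨(mem_filter.1 hp.1).1, fun T => ?_⟩
  have h := mem_filter.1 (hp.2 (univ.filter (fun i : Fin d => i.succ ∈ T)))
  rw [gcs_off_cons]
  by_cases h0 : (0 : Fin (d + 1)) ∈ T
  · rw [if_pos h0]
    have h2 := h.2
    have e : p + (x + off 1 b (univ.filter (fun i : Fin d => i.succ ∈ T))) =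
        p + off 1 b (univ.filter (fun i : Fin d => i.succ ∈ T)) + x := by ring
    rw [e]
    exact h2
  · rw [if_neg h0, zero_add]
    exact h.1

theorem gcs_sum_ge {d : ℕ} (N : ℕ) (A : Finset ℕ) :
    ∑ x ∈ Icc 1 N, ∑ b ∈ bx d N, ((cub (A.filter (fun p => p + x ∈ A)) 1 b).card : ℝ) ≤
      ∑ b ∈ bx (d + 1) N, ((cub A 1 b).card : ℝ) := by
  rw [← Finset.sum_product']
  have hinj : Set.InjOn (fun q : ℕ × (Fin d → ℕ) => (Fin.cons q.1 q.2 : Fin (d + 1) → ℕ))
      (↑(Icc 1 N ×ˢ bx d N) : Set (ℕ × (Fin d → ℕ))) := by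
    intro a _ b _ hab
    have := Fin.cons_inj.1 hab
    exact Prod.ext this.1 this.2
  calc ∑ q ∈ Icc 1 N ×ˢ bx d N, ((cub (A.filter (fun p => p + q.1 ∈ A)) 1 q.2).card : ℝ)
      ≤ ∑ q ∈ Icc 1 N ×ˢ bx d N, ((cub A 1 (Fin.cons q.1 q.2 : Fin (d + 1) → ℕ)).card : ℝ) := by
        refine sum_le_sum fun q _ => ?_
        exact_mod_cast card_le_card (gcs_cub_subset A q.1 q.2)
    _ = ∑ b ∈ (Icc 1 N ×ˢ bx d N).image (fun q => (Fin.cons q.1 q.2 : Fin (d + 1) → ℕ)),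
          ((cub A 1 b).card : ℝ) := by
        rw [Finset.sum_image hinj]
    _ ≤ ∑ b ∈ bx (d + 1) N, ((cub A 1 b).card : ℝ) := by
        refine sum_le_sum_of_subset_of_nonneg ?_ (fun _ _ _ => Nat.cast_nonneg _)
        intro b hb
        obtain ⟨q, hq, rfl⟩ := mem_image.1 hb
        have hq' := mem_product.1 hq
        rw [mem_bx]
        intro i
        refine Fin.cases ?_ (fun j => ?_) i
        · simpa using mem_Icc.1 hq'.1
        · simpa using (mem_bx.1 hq'.2) j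

theorem gcs_pairs (N u : ℕ) (A : Finset ℕ) (hA : A ⊆ Icc u (u + N)) :
    A.card * A.card ≤ A.card + 2 * ∑ x ∈ Icc 1 N, (A.filter (fun p => p + x ∈ A)).card := by
  set S : Finset (ℕ × ℕ) := (Icc 1 N).biUnion
    (fun x => (A.filter (fun p => p + x ∈ A)).image (fun p => (p, p + x))) with hS
  have hScard : S.card ≤ ∑ x ∈ Icc 1 N, (A.filter (fun p => p + x ∈ A)).card :=
    card_biUnion_le.trans (sum_le_sum fun x _ => card_image_le)
  have hsub : A ×ˢ A ⊆ (A.image (fun p => (p, p)) ∪ S) ∪ S.image Prod.swap := by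
    rintro ⟨p, q⟩ hpq
    have hp := (mem_product.1 hpq).1
    have hq := (mem_product.1 hpq).2
    simp only at hp hq
    have hp' := mem_Icc.1 (hA hp)
    have hq' := mem_Icc.1 (hA hq)
    rcases lt_trichotomy p q with h | h | h
    · refine mem_union_left _ (mem_union_right _ (mem_biUnion.2 ⟨q - p, mem_Icc.2 ⟨by omega, by omega⟩, ?_⟩))
      refine mem_image.2 ⟨p, mem_filter.2 ⟨hp, ?_⟩, ?_⟩
      · have : p + (q - p) = q := by omega
        rw [this]; exact hq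
      · have : p + (q - p) = q := by omega
        rw [this]
    · refine mem_union_left _ (mem_union_left _ (mem_image.2 ⟨p, hp, ?_⟩))
      rw [h]
    · refine mem_union_right _ (mem_image.2 ⟨(q, p), ?_, rfl⟩)
      refine mem_biUnion.2 ⟨p - q, mem_Icc.2 ⟨by omega, by omega⟩, ?_⟩
      refine mem_image.2 ⟨q, mem_filter.2 ⟨hq, ?_⟩, ?_⟩
      · have : q + (p - q) = p := by omega
        rw [this]; exact hp
      · have : q + (p - q) = p := by omega
        rw [this]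
  have h1 := card_le_card hsub
  rw [card_product] at h1
  have h2 := card_union_le (A.image (fun p => (p, p)) ∪ S) (S.image Prod.swap)
  have h3 := card_union_le (A.image (fun p => (p, p))) S
  have h4 : (A.image (fun p => (p, p))).card ≤ A.card := card_image_le
  have h5 : (S.image Prod.swap).card ≤ S.card := card_image_le
  omega

theorem gcs (d : ℕ) : ∃ c C : ℝ, 0 < c ∧ 0 < C ∧ ∀ N : ℕ, 1 ≤ N → ∀ u : ℕ, ∀ A : Finset ℕ,
    A ⊆ Icc u (u + N) →
      c * (A.card : ℝ) ^ (2 ^ d) * (N : ℝ) ^ (d + 1) ≤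
        ((∑ b ∈ bx d N, ((cub A 1 b).card : ℝ)) + C * (N : ℝ) ^ d) * (N : ℝ) ^ (2 ^ d) := by
  induction d with
  | zero =>
    refine ⟨1, 1, one_pos, one_pos, fun N hN u A hA => ?_⟩
    have h1 : ∑ b ∈ bx 0 N, ((cub A 1 b).card : ℝ) = A.card := by
      have hb : ∀ b ∈ bx 0 N, ((cub A 1 b).card : ℝ) = A.card := by
        intro b _
        congr 2
        unfold cub off
        rw [filter_eq_self]
        intro p hp s
        have : s = ∅ := by
          ext i; exact i.elim0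
        rw [this]
        simpa using hp
      rw [sum_congr rfl hb, sum_const, card_bx]
      simp
    rw [h1]
    simp only [pow_zero, one_mul, zero_add, pow_one, mul_one]
    have : (0 : ℝ) ≤ N := Nat.cast_nonneg _
    nlinarith
  | succ d ih =>
    obtain ⟨c, C, hc, hC, hih⟩ := ih
    set k : ℕ := 2 ^ d with hk
    have hk1 : 1 ≤ k := Nat.one_le_two_pow
    refine ⟨c / 4 ^ k, C + c / 4 ^ k, by positivity, by positivity, fun N hN u A hA => ?_⟩
    have hN1 : (1 : ℝ) ≤ N := by exact_mod_cast hN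
    have hN0 : (0 : ℝ) < N := by linarith
    have hkk : 2 ^ (d + 1) = k + k := by rw [hk]; ring
    rw [hkk]
    set a : ℝ := (A.card : ℝ) with ha
    have ha0 : 0 ≤ a := Nat.cast_nonneg _
    set s : ℕ → ℝ := fun x => ((A.filter (fun p => p + x ∈ A)).card : ℝ) with hs
    set Q : ℝ := ∑ b ∈ bx (d + 1) N, ((cub A 1 b).card : ℝ) with hQ
    have hQ0 : 0 ≤ Q := sum_nonneg fun _ _ => Nat.cast_nonneg _
    have hc' : 0 < c / 4 ^ k := by positivity
    rcases Nat.lt_or_ge A.card 2 with hlt | hge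
    · -- trivial case
      have ha1 : a ≤ 1 := by
        have : A.card ≤ 1 := by omega
        rw [ha]
        exact_mod_cast this
      have hapow : a ^ (k + k) ≤ 1 := pow_le_one₀ ha0 ha1
      have hNpow : (N : ℝ) ≤ (N : ℝ) ^ (k + k) := le_self_pow₀ hN1 (by omega)
      have hNd : 0 < (N : ℝ) ^ (d + 1) := by positivity
      calc c / 4 ^ k * a ^ (k + k) * (N : ℝ) ^ (d + 1 + 1)
          ≤ c / 4 ^ k * 1 * (N : ℝ) ^ (d + 1 + 1) := by
            gcongr
        _ = (c / 4 ^ k * (N : ℝ) ^ (d + 1)) * N := by ring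
        _ ≤ (c / 4 ^ k * (N : ℝ) ^ (d + 1)) * (N : ℝ) ^ (k + k) := by
            gcongr
        _ ≤ (Q + (C + c / 4 ^ k) * (N : ℝ) ^ (d + 1)) * (N : ℝ) ^ (k + k) := by
            gcongr
            nlinarith [mul_pos hC hNd]
    · -- main case
      have ha2 : (2 : ℝ) ≤ a := by
        rw [ha]
        exact_mod_cast hge
      have hpairs : a ^ 2 / 4 ≤ ∑ x ∈ Icc 1 N, s x := by
        have h1 := gcs_pairs N u A hA
        have h2 : a * a ≤ a + 2 * ∑ x ∈ Icc 1 N, s x := by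
          simp only [ha, hs]
          exact_mod_cast h1
        nlinarith
      have hsum0 : 0 ≤ ∑ x ∈ Icc 1 N, s x := sum_nonneg fun _ _ => Nat.cast_nonneg _
      have hih' : ∀ x ∈ Icc 1 N, c * s x ^ k * (N : ℝ) ^ (d + 1) ≤
          ((∑ b ∈ bx d N, ((cub (A.filter (fun p => p + x ∈ A)) 1 b).card : ℝ)) + C * (N : ℝ) ^ d) *
            (N : ℝ) ^ k :=
        fun x _ => hih N hN u _ ((filter_subset _ _).trans hA)
      have hsumih := sum_le_sum hih'
      rw [← Finset.sum_mul, ← Finset.sum_mul, ← Finset.mul_sum, Finset.sum_add_distrib] at hsumih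
      rw [sum_const, Nat.card_Icc, nsmul_eq_mul] at hsumih
      have hge' := gcs_sum_ge (d := d) N A
      have hA1 : c * (∑ x ∈ Icc 1 N, s x ^ k) * (N : ℝ) ^ (d + 1) ≤
          (Q + C * (N : ℝ) ^ (d + 1)) * (N : ℝ) ^ k := by
        refine hsumih.trans ?_
        have : ((N + 1 - 1 : ℕ) : ℝ) * (C * (N : ℝ) ^ d) = C * (N : ℝ) ^ (d + 1) := by
          rw [Nat.add_sub_cancel]; ring
        rw [this]
        gcongr
      -- power mean
      have hpm : (N : ℝ) * (∑ x ∈ Icc 1 N, s x) ^ k ≤ (N : ℝ) ^ k * ∑ x ∈ Icc 1 N, s x ^ k := by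
        obtain ⟨n, hn⟩ : ∃ n, k = n + 1 := ⟨k - 1, by omega⟩
        have h2 := pow_sum_div_card_le_sum_pow (s := Icc 1 N) (f := s) (n := n) (fun x _ => Nat.cast_nonneg _)
        rw [Nat.card_Icc, Nat.add_sub_cancel, div_le_iff₀ (by positivity)] at h2
        rw [hn]
        calc (N : ℝ) * (∑ x ∈ Icc 1 N, s x) ^ (n + 1) ≤ N * ((∑ x ∈ Icc 1 N, s x ^ (n + 1)) * (N : ℝ) ^ n) := by
              gcongr
          _ = (N : ℝ) ^ (n + 1) * ∑ x ∈ Icc 1 N, s x ^ (n + 1) := by ring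
      have hpow : (a ^ 2 / 4) ^ k ≤ (∑ x ∈ Icc 1 N, s x) ^ k := by
        gcongr
      calc c / 4 ^ k * a ^ (k + k) * (N : ℝ) ^ (d + 1 + 1)
          = c * (N : ℝ) ^ (d + 1) * (N * (a ^ 2 / 4) ^ k) := by
            rw [div_pow, ← pow_mul, two_mul]; ring
        _ ≤ c * (N : ℝ) ^ (d + 1) * (N * (∑ x ∈ Icc 1 N, s x) ^ k) := by gcongr
        _ ≤ c * (N : ℝ) ^ (d + 1) * ((N : ℝ) ^ k * ∑ x ∈ Icc 1 N, s x ^ k) := by gcongr
        _ = (c * (∑ x ∈ Icc 1 N, s x ^ k) * (N : ℝ) ^ (d + 1)) * (N : ℝ) ^ k := by ring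
        _ ≤ ((Q + C * (N : ℝ) ^ (d + 1)) * (N : ℝ) ^ k) * (N : ℝ) ^ k := by gcongr
        _ = (Q + C * (N : ℝ) ^ (d + 1)) * (N : ℝ) ^ (k + k) := by ring
        _ ≤ (Q + (C + c / 4 ^ k) * (N : ℝ) ^ (d + 1)) * (N : ℝ) ^ (k + k) := by
            gcongr
            linarith

end UGB
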