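import Pool.Agent.Helper72.UGB.WForm
import Pool.Agent.Helper72.UGB.Coin
import Pool.Agent.Helper83.HLC.Count

/-!
# UGB-4: prime tuples on average

Fix `P ≥ P₀ ≥ max (W, 3)`, `N = P / W` (so `1 ≤ N ≤ P` and `P < W (N + 1) ≤ 2 W N`) and `X = 2 P`.

(1) `v` for which the offsets `off W v T`, `T ∈ 𝒯`, are pairwise distinct: `HLC.count_tuples m` with
`s = 𝒯.image (off W v)`, `s.card = m`, gives at most `C₀ X / (log X) ^ m * ∏_{x ∈ s.offDiag} HLC.W (dist x.1 x.2) ^ m`. The product runs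
over the pairs of distinct members of `𝒯` (`Finset.prod_nbij`/`prod_image` with `Prod.map`), `dist (W a) (W a') = W * dist a a'`
(`Nat.dist_mul_left`), `HLC.W (W * y) ≤ HLC.W W * HLC.W y` for `y ≠ 0` (primes dividing `W y` divide `W` or `y`, all factors `≥ 1`).
All factors are `≥ 1` (`HLC.one_le_W`), so with `J = 𝒯.offDiag`, `κ = m * J.card`: `∏_{j ∈ J} w j ^ m ≤ 1 + ∑_{j ∈ J} w j ^ κ`
(if `J` is empty the product is `1`, otherwise it is at most `(max w) ^ (m |J|)`). Summing over `v` and using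
`sum_W_dist D κ` for each pair: total `≤ C X / (log X) ^ m * N ^ D`, and `log X ≥ log P`, `X N ^ D ≤ 2 P ^ (D + 1)`.
(2) The other `v`: two members `T ≠ T'` of `𝒯` have `∑_T v = ∑_{T'} v` (as `W > 0`). By `coin` there are at most
`m ^ 2 N ^ D / N` of these `v`, each counts at most `X = 2 P ≤ 4 W N` numbers `n`: total
`≤ 4 W m ^ 2 N ^ D ≤ 4 W m ^ 2 P ^ D ≤ P ^ (D + 1) / (log P) ^ m * C` since `(log P) ^ m ≤ C P` for `P ≥ P₀`
(`isLittleO_pow_log_id_atTop`; or `Real.log_le_rpow_div`).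
If `D = 0` or `m ≤ 1` only (1) occurs. The constant depends on `D`, `W`, `m` only.
-/

set_option autoImplicit false

namespace UGB

open Finset MRP

open Pool.Agent.Helper83

private theorem tuples_W_mul (a y : ℕ) (ha : a ≠ 0) (hy : y ≠ 0) :
    HLC.W (a * y) ≤ HLC.W a * HLC.W y := by
  classical
  unfold HLC.W
  rw [Nat.primeFactors_mul ha hy, ← Finset.prod_union_inter]
  refine le_mul_of_one_le_right ?_ ?_
  · exact Finset.prod_nonneg fun p _ => by positivity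
  · calc (1 : ℝ) = ∏ _p ∈ (a.primeFactors ∩ y.primeFactors), (1 : ℝ) := by simp
      _ ≤ _ := Finset.prod_le_prod (fun _ _ => zero_le_one) fun p _ => by
        have : 0 ≤ 2 / (p : ℝ) := by positivity
        linarith

private theorem tuples_prod {ι : Type} (J : Finset ι) (w : ι → ℝ) (hw : ∀ j ∈ J, 1 ≤ w j) (m : ℕ) :
    ∏ j ∈ J, w j ^ m ≤ 1 + ∑ j ∈ J, w j ^ (m * J.card) := by
  classical
  rcases J.eq_empty_or_nonempty with rfl | hJ
  · simp
  obtain ⟨j₀, hj₀, hmax⟩ := J.exists_max_image w hJ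
  have h0 : 0 ≤ w j₀ := le_trans zero_le_one (hw _ hj₀)
  have h1 : ∏ j ∈ J, w j ^ m ≤ w j₀ ^ (m * J.card) := by
    calc ∏ j ∈ J, w j ^ m ≤ ∏ _j ∈ J, w j₀ ^ m :=
          Finset.prod_le_prod (fun j hj => by have := hw j hj; positivity)
            (fun j hj => pow_le_pow_left₀ (by have := hw j hj; linarith) (hmax j hj) m)
      _ = w j₀ ^ (m * J.card) := by rw [Finset.prod_const, ← pow_mul]
  have h2 : w j₀ ^ (m * J.card) ≤ ∑ j ∈ J, w j ^ (m * J.card) :=
    Finset.single_le_sum (f := fun j => w j ^ (m * J.card))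
      (fun j hj => by have := hw j hj; positivity) hj₀
  linarith

/-- The tuples with pairwise distinct offsets. -/
private theorem tuples_good (D W m : ℕ) (hW : 0 < W) : ∃ C₀ : ℝ, 0 < C₀ ∧ ∀ P : ℕ, 3 ≤ P →
    ∀ 𝒯 : Finset (Finset (Fin D)), 𝒯.card = m → ∀ v : Fin D → ℕ,
      Set.InjOn (off W v) (𝒯 : Set (Finset (Fin D))) →
      ((((Icc 1 (2 * P)).filter (fun n => ∀ T ∈ 𝒯, (n + off W v T).Prime)).card : ℕ) : ℝ) ≤
        C₀ * P / (Real.log P) ^ m *
          (1 + ∑ x ∈ 𝒯.offDiag,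
            HLC.W (Nat.dist (∑ i ∈ x.1, v i) (∑ i ∈ x.2, v i)) ^ (m * (m * m - m))) := by
  classical
  obtain ⟨C, hC, h⟩ := HLC.count_tuples m
  have hcW : 1 ≤ HLC.W W := HLC.one_le_W W
  refine ⟨C * 2 * HLC.W W ^ (m * (m * m - m)), by positivity, fun P hP 𝒯 h𝒯 v hinj => ?_⟩
  have h1 := h (2 * P) (by omega) (𝒯.image (off W v))
    (by rw [Finset.card_image_of_injOn hinj, h𝒯])
  have hf : (Icc 1 (2 * P)).filter (fun n => ∀ i ∈ 𝒯.image (off W v), (n + i).Prime) =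
      (Icc 1 (2 * P)).filter (fun n => ∀ T ∈ 𝒯, (n + off W v T).Prime) := by
    refine Finset.filter_congr fun n _ => ?_
    rw [Finset.forall_mem_image]
  rw [hf] at h1
  have hprod : ∏ x ∈ (𝒯.image (off W v)).offDiag, HLC.W (Nat.dist x.1 x.2) ^ m =
      ∏ x ∈ 𝒯.offDiag, HLC.W (Nat.dist (off W v x.1) (off W v x.2)) ^ m := by
    symm
    refine Finset.prod_nbij (fun x => (off W v x.1, off W v x.2)) ?_ ?_ ?_ ?_
    · intro x hx
      rw [Finset.mem_offDiag] at hx ⊢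
      exact ⟨Finset.mem_image_of_mem _ hx.1, Finset.mem_image_of_mem _ hx.2.1,
        fun he => hx.2.2 (hinj hx.1 hx.2.1 he)⟩
    · intro x hx y hy he
      rw [Finset.mem_coe, Finset.mem_offDiag] at hx hy
      simp only [Prod.mk.injEq] at he
      exact Prod.ext (hinj hx.1 hy.1 he.1) (hinj hx.2.1 hy.2.1 he.2)
    · intro y hy
      rw [Finset.mem_coe, Finset.mem_offDiag] at hy
      obtain ⟨a, ha, hay⟩ := Finset.mem_image.1 hy.1
      obtain ⟨b, hb, hby⟩ := Finset.mem_image.1 hy.2.1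
      refine ⟨(a, b), ?_, ?_⟩
      · rw [Finset.mem_coe, Finset.mem_offDiag]
        refine ⟨ha, hb, fun he => hy.2.2 ?_⟩
        simp only at he
        rw [← hay, ← hby, he]
      · simp only [hay, hby]
    · intro x _
      rfl
  rw [hprod] at h1
  have hJ : (𝒯.offDiag).card = m * m - m := by rw [Finset.offDiag_card, h𝒯]
  have hp2 : ∏ x ∈ 𝒯.offDiag, HLC.W (Nat.dist (off W v x.1) (off W v x.2)) ^ m ≤
      HLC.W W ^ (m * (m * m - m)) * (1 + ∑ x ∈ 𝒯.offDiag,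
        HLC.W (Nat.dist (∑ i ∈ x.1, v i) (∑ i ∈ x.2, v i)) ^ (m * (m * m - m))) := by
    have h3 : ∏ x ∈ 𝒯.offDiag, HLC.W (Nat.dist (off W v x.1) (off W v x.2)) ^ m ≤
        ∏ x ∈ 𝒯.offDiag, (HLC.W W ^ m *
          HLC.W (Nat.dist (∑ i ∈ x.1, v i) (∑ i ∈ x.2, v i)) ^ m) := by
      refine Finset.prod_le_prod (fun x _ => ?_) (fun x hx => ?_)
      · exact pow_nonneg (le_trans zero_le_one (HLC.one_le_W _)) _
      · rw [← mul_pow]
        refine pow_le_pow_left₀ (le_trans zero_le_one (HLC.one_le_W _)) ?_ _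
        rw [Finset.mem_offDiag] at hx
        have h4 : Nat.dist (off W v x.1) (off W v x.2) =
            W * Nat.dist (∑ i ∈ x.1, v i) (∑ i ∈ x.2, v i) := by
          unfold off
          exact Nat.dist_mul_left _ _ _
        rw [h4]
        refine tuples_W_mul _ _ hW.ne' (fun h0 => hx.2.2 (hinj hx.1 hx.2.1 ?_))
        have h5 := Nat.eq_of_dist_eq_zero h0
        unfold off
        rw [h5]
    refine h3.trans ?_
    rw [Finset.prod_mul_distrib, Finset.prod_const, hJ, ← pow_mul]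
    refine mul_le_mul_of_nonneg_left ?_ (by positivity)
    have h6 := tuples_prod 𝒯.offDiag
      (fun x => HLC.W (Nat.dist (∑ i ∈ x.1, v i) (∑ i ∈ x.2, v i)))
      (fun x _ => HLC.one_le_W _) m
    rw [hJ] at h6
    exact h6
  have hPR : (3 : ℝ) ≤ P := by exact_mod_cast hP
  have hl : 0 < Real.log P := Real.log_pos (by linarith)
  have hl2 : Real.log P ≤ Real.log ((2 * P : ℕ) : ℝ) :=
    Real.log_le_log (by linarith) (by push_cast; linarith)
  refine h1.trans ?_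
  have h7 : C * ((2 * P : ℕ) : ℝ) / Real.log ((2 * P : ℕ) : ℝ) ^ m ≤
      C * 2 * P / Real.log P ^ m := by
    have : C * ((2 * P : ℕ) : ℝ) = C * 2 * P := by push_cast; ring
    rw [this]
    refine div_le_div_of_nonneg_left (by positivity) (by positivity) ?_
    exact pow_le_pow_left₀ hl.le hl2 m
  calc C * ((2 * P : ℕ) : ℝ) / Real.log ((2 * P : ℕ) : ℝ) ^ m *
        ∏ x ∈ 𝒯.offDiag, HLC.W (Nat.dist (off W v x.1) (off W v x.2)) ^ m
      ≤ (C * 2 * P / Real.log P ^ m) * (HLC.W W ^ (m * (m * m - m)) * (1 + ∑ x ∈ 𝒯.offDiag,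
        HLC.W (Nat.dist (∑ i ∈ x.1, v i) (∑ i ∈ x.2, v i)) ^ (m * (m * m - m)))) := by
        refine mul_le_mul h7 hp2 ?_ (by positivity)
        exact Finset.prod_nonneg fun x _ => pow_nonneg (le_trans zero_le_one (HLC.one_le_W _)) _
    _ = _ := by ring

/-- The exceptional tuples. -/
private theorem tuples_bad (D N : ℕ) (𝒯 : Finset (Finset (Fin D))) (W : ℕ) (hW : 0 < W) :
    ((bx D N).filter (fun v => ¬ Set.InjOn (off W v) (𝒯 : Set (Finset (Fin D))))).card * N ≤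
      (𝒯.card * 𝒯.card - 𝒯.card) * N ^ D := by
  classical
  have hsub : (bx D N).filter (fun v => ¬ Set.InjOn (off W v) (𝒯 : Set (Finset (Fin D)))) ⊆
      𝒯.offDiag.biUnion (fun x =>
        (bx D N).filter (fun v => ∑ i ∈ x.1, v i = ∑ i ∈ x.2, v i)) := by
    intro v hv
    rw [Finset.mem_filter] at hv
    obtain ⟨hv1, hv2⟩ := hv
    unfold Set.InjOn at hv2
    push Not at hv2
    obtain ⟨T, hT, T', hT', he, hne⟩ := hv2
    rw [Finset.mem_biUnion]
    refine ⟨(T, T'), Finset.mem_offDiag.2 ⟨hT, hT', hne⟩, Finset.mem_filter.2 ⟨hv1, ?_⟩⟩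
    unfold off at he
    exact Nat.eq_of_mul_eq_mul_left hW he
  calc ((bx D N).filter (fun v => ¬ Set.InjOn (off W v) (𝒯 : Set (Finset (Fin D))))).card * N
      ≤ (∑ x ∈ 𝒯.offDiag,
          ((bx D N).filter (fun v => ∑ i ∈ x.1, v i = ∑ i ∈ x.2, v i)).card) * N :=
        Nat.mul_le_mul_right _ ((Finset.card_le_card hsub).trans Finset.card_biUnion_le)
    _ = ∑ x ∈ 𝒯.offDiag,
          ((bx D N).filter (fun v => ∑ i ∈ x.1, v i = ∑ i ∈ x.2, v i)).card * N := by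
        rw [Finset.sum_mul]
    _ ≤ ∑ _x ∈ 𝒯.offDiag, N ^ D := by
        refine Finset.sum_le_sum fun x hx => ?_
        rw [Finset.mem_offDiag] at hx
        exact coin D N x.1 x.2 hx.2.2
    _ = (𝒯.card * 𝒯.card - 𝒯.card) * N ^ D := by
        rw [Finset.sum_const, Finset.offDiag_card, smul_eq_mul]

private theorem tuples_log (m : ℕ) : ∃ P₀ : ℕ, ∀ P : ℕ, P₀ ≤ P → Real.log P ^ m ≤ P := by
  have h1 : ∀ᶠ x : ℝ in Filter.atTop, ‖Real.log x ^ m‖ ≤ 1 * ‖x‖ :=
    (Real.isLittleO_pow_log_id_atTop (n := m)).bound one_pos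
  have h2 : ∀ᶠ n : ℕ in Filter.atTop, ‖Real.log (n : ℝ) ^ m‖ ≤ 1 * ‖(n : ℝ)‖ :=
    tendsto_natCast_atTop_atTop.eventually h1
  obtain ⟨P₀, hP₀⟩ := Filter.eventually_atTop.1 h2
  refine ⟨P₀, fun P hP => ?_⟩
  have h3 := hP₀ P hP
  rw [one_mul, Real.norm_eq_abs, Real.norm_eq_abs, abs_of_nonneg (Nat.cast_nonneg (α := ℝ) P)] at h3
  exact (le_abs_self _).trans h3

theorem tuples (D W m : ℕ) (hW : 0 < W) : ∃ C : ℝ, 0 < C ∧ ∃ P₀ : ℕ, ∀ P : ℕ, P₀ ≤ P →
    ∀ 𝒯 : Finset (Finset (Fin D)), 𝒯.card = m →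
      ∑ v ∈ bx D (P / W), ((((Icc 1 (2 * P)).filter (fun n => ∀ T ∈ 𝒯, (n + off W v T).Prime)).card : ℕ) : ℝ) ≤
        C * P ^ (D + 1) / (Real.log P) ^ m := by
  classical
  obtain ⟨C₀, hC₀, hgood⟩ := tuples_good D W m hW
  obtain ⟨C₁, hC₁, hdist⟩ := sum_W_dist D (m * (m * m - m))
  obtain ⟨P₁, hlog⟩ := tuples_log m
  set j : ℕ := m * m - m with hj
  refine ⟨C₀ * (1 + j * C₁) + 4 * W * j, by positivity, max P₁ (max 3 W), fun P hP 𝒯 h𝒯 => ?_⟩
  have hP1 : P₁ ≤ P := le_trans (le_max_left _ _) hP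
  have hP3 : 3 ≤ P := le_trans (le_trans (le_max_left _ _) (le_max_right _ _)) hP
  have hPW : W ≤ P := le_trans (le_trans (le_max_right _ _) (le_max_right _ _)) hP
  have hPR : (3 : ℝ) ≤ P := by exact_mod_cast hP3
  have hl : 0 < Real.log P := Real.log_pos (by linarith)
  have hlm : 0 < Real.log P ^ m := pow_pos hl m
  set N : ℕ := P / W with hN
  have hN1 : 1 ≤ N := (Nat.one_le_div_iff hW).2 hPW
  have hNP : N ≤ P := Nat.div_le_self P W
  have hNPR : (N : ℝ) ≤ P := by exact_mod_cast hNP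
  have hPN : 2 * P ≤ 4 * W * N := by
    have h1 : P < W * (N + 1) := by
      rw [hN]; exact Nat.lt_mul_div_succ P hW
    have h2 : W * (N + 1) ≤ W * (2 * N) := Nat.mul_le_mul_left _ (by omega)
    calc 2 * P ≤ 2 * (W * (2 * N)) := Nat.mul_le_mul_left _ (by omega)
      _ = 4 * W * N := by ring
  set cnt : (Fin D → ℕ) → ℝ := fun v =>
    ((((Icc 1 (2 * P)).filter (fun n => ∀ T ∈ 𝒯, (n + off W v T).Prime)).card : ℕ) : ℝ) with hcnt
  set wt : (Fin D → ℕ) → Finset (Fin D) × Finset (Fin D) → ℝ := fun v x =>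
    HLC.W (Nat.dist (∑ i ∈ x.1, v i) (∑ i ∈ x.2, v i)) ^ (m * (m * m - m)) with hwt
  have hwt0 : ∀ v x, 0 ≤ wt v x := fun v x =>
    pow_nonneg (le_trans zero_le_one (HLC.one_le_W _)) _
  -- the good tuples
  have h1 : ∑ v ∈ (bx D N).filter (fun v => Set.InjOn (off W v) (𝒯 : Set (Finset (Fin D)))), cnt v ≤
      C₀ * P / Real.log P ^ m * ((1 + j * C₁) * (N : ℝ) ^ D) := by
    calc ∑ v ∈ (bx D N).filter (fun v => Set.InjOn (off W v) (𝒯 : Set (Finset (Fin D)))), cnt v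
        ≤ ∑ v ∈ (bx D N).filter (fun v => Set.InjOn (off W v) (𝒯 : Set (Finset (Fin D)))),
            C₀ * P / Real.log P ^ m * (1 + ∑ x ∈ 𝒯.offDiag, wt v x) := by
          refine Finset.sum_le_sum fun v hv => ?_
          exact hgood P hP3 𝒯 h𝒯 v (Finset.mem_filter.1 hv).2
      _ ≤ ∑ v ∈ bx D N, C₀ * P / Real.log P ^ m * (1 + ∑ x ∈ 𝒯.offDiag, wt v x) := by
          refine Finset.sum_le_sum_of_subset_of_nonneg (Finset.filter_subset _ _) fun v _ _ => ?_
          have : 0 ≤ ∑ x ∈ 𝒯.offDiag, wt v x := Finset.sum_nonneg fun x _ => hwt0 v x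
          positivity
      _ = C₀ * P / Real.log P ^ m * ((N : ℝ) ^ D + ∑ x ∈ 𝒯.offDiag, ∑ v ∈ bx D N, wt v x) := by
          rw [← Finset.mul_sum, Finset.sum_add_distrib, Finset.sum_const, card_bx, nsmul_eq_mul,
            mul_one, Finset.sum_comm]
          push_cast
          ring
      _ ≤ C₀ * P / Real.log P ^ m * ((1 + j * C₁) * (N : ℝ) ^ D) := by
          refine mul_le_mul_of_nonneg_left ?_ (by positivity)
          have h2 : ∑ x ∈ 𝒯.offDiag, ∑ v ∈ bx D N, wt v x ≤ ∑ _x ∈ 𝒯.offDiag, C₁ * (N : ℝ) ^ D := by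
            refine Finset.sum_le_sum fun x hx => ?_
            rw [Finset.mem_offDiag] at hx
            exact hdist N hN1 x.1 x.2 hx.2.2
          rw [Finset.sum_const, Finset.offDiag_card, h𝒯, nsmul_eq_mul] at h2
          calc (N : ℝ) ^ D + ∑ x ∈ 𝒯.offDiag, ∑ v ∈ bx D N, wt v x
              ≤ (N : ℝ) ^ D + (j : ℝ) * (C₁ * (N : ℝ) ^ D) := by rw [hj]; linarith
            _ = _ := by ring
  -- the bad tuples
  have h2 : ∑ v ∈ (bx D N).filter (fun v => ¬ Set.InjOn (off W v) (𝒯 : Set (Finset (Fin D)))), cnt v ≤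
      4 * W * j * (N : ℝ) ^ D := by
    have h3 : ∀ v, cnt v ≤ 4 * W * N := by
      intro v
      have h4 : ((Icc 1 (2 * P)).filter (fun n => ∀ T ∈ 𝒯, (n + off W v T).Prime)).card ≤ 2 * P := by
        refine (Finset.card_filter_le _ _).trans ?_
        simp
      have h5 := h4.trans hPN
      simp only [hcnt]
      exact_mod_cast h5
    calc ∑ v ∈ (bx D N).filter (fun v => ¬ Set.InjOn (off W v) (𝒯 : Set (Finset (Fin D)))), cnt v
        ≤ ∑ _v ∈ (bx D N).filter (fun v => ¬ Set.InjOn (off W v) (𝒯 : Set (Finset (Fin D)))),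
            (4 * W * N : ℝ) := Finset.sum_le_sum fun v _ => h3 v
      _ = 4 * W * ((((bx D N).filter
            (fun v => ¬ Set.InjOn (off W v) (𝒯 : Set (Finset (Fin D))))).card * N : ℕ) : ℝ) := by
          rw [Finset.sum_const, nsmul_eq_mul]
          push_cast
          ring
      _ ≤ 4 * W * (((𝒯.card * 𝒯.card - 𝒯.card) * N ^ D : ℕ) : ℝ) := by
          refine mul_le_mul_of_nonneg_left ?_ (by positivity)
          exact_mod_cast tuples_bad D N 𝒯 W hW
      _ = 4 * W * j * (N : ℝ) ^ D := by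
          rw [h𝒯, ← hj]
          push_cast
          ring
  have hND : (N : ℝ) ^ D ≤ (P : ℝ) ^ D := pow_le_pow_left₀ (Nat.cast_nonneg _) hNPR D
  have hsplit := Finset.sum_filter_add_sum_filter_not (bx D N)
    (fun v => Set.InjOn (off W v) (𝒯 : Set (Finset (Fin D)))) cnt
  rw [← hsplit]
  have h6 : C₀ * P / Real.log P ^ m * ((1 + j * C₁) * (N : ℝ) ^ D) ≤
      C₀ * (1 + j * C₁) * P ^ (D + 1) / Real.log P ^ m := by
    calc C₀ * P / Real.log P ^ m * ((1 + j * C₁) * (N : ℝ) ^ D)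
        ≤ C₀ * P / Real.log P ^ m * ((1 + j * C₁) * (P : ℝ) ^ D) := by gcongr
      _ = _ := by rw [pow_succ]; ring
  have h7 : 4 * W * j * (N : ℝ) ^ D ≤ 4 * W * j * P ^ (D + 1) / Real.log P ^ m := by
    rw [le_div_iff₀ hlm]
    calc 4 * W * j * (N : ℝ) ^ D * Real.log P ^ m ≤ 4 * W * j * (P : ℝ) ^ D * P := by
          have := hlog P hP1
          gcongr
      _ = _ := by rw [pow_succ]; ring
  calc _ ≤ C₀ * (1 + j * C₁) * P ^ (D + 1) / Real.log P ^ m +
        4 * W * j * P ^ (D + 1) / Real.log P ^ m := add_le_add (h1.trans h6) (h2.trans h7)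
    _ = _ := by ring

end UGB
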