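import Pool.Agent.Helper72.UGB.Defs
import Pool.Agent.Helper83.HLC.WSum

/-!
# UGB-2: the mean of a power of the singular factor over a box

`HLC.W` is the product of `1 + 2/p` over the prime divisors (`HLC.W 0 = 1`, as `0` has no prime factors in Mathlib).
Let `C₀` be the constant of `HLC.sum_W_pow κ`. Choose `i₀` in exactly one of `T`, `T'`; by the symmetry of `Nat.dist` (`Nat.dist_comm`)
let `i₀ ∈ T`, `i₀ ∉ T'`. Fix the coordinates `v i`, `i ≠ i₀`. With `x = v i₀ ∈ [1, N]` the two sums are `x + ρ` and `ρ'`, both `≤ D N`,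
so `Nat.dist` is `≤ D N` and every value is taken by at most two `x`. Hence the sum over `x` is at most
`2 (HLC.W 0 ^ κ + ∑_{1 ≤ y ≤ D N} HLC.W y ^ κ) ≤ 2 (1 + C₀ D N)`, and there are `N ^ (D - 1)` choices of the other coordinates
(`D ≥ 1` as `T ≠ T'`). For `N ≥ 1` the total is `≤ 2 (1 + C₀ D) N ^ D`.
In Lean: the involution `(v, x) ↦ (Function.update v i₀ x, v i₀)` of `bx D N ×ˢ Icc 1 N`.
-/

set_option autoImplicit false

namespace UGB

open Finset MRP

theorem sum_update {D : ℕ} (i : Fin D) (N : ℕ) (f : (Fin D → ℕ) → ℝ) :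
    ∑ v ∈ bx D N, ∑ x ∈ Icc 1 N, f (Function.update v i x) = N * ∑ v ∈ bx D N, f v := by
  rw [← Finset.sum_product']
  have h : ∑ q ∈ bx D N ×ˢ Icc 1 N, f (Function.update q.1 i q.2) =
      ∑ q ∈ bx D N ×ˢ Icc 1 N, f q.1 := by
    refine Finset.sum_nbij' (fun q => (Function.update q.1 i q.2, q.1 i))
      (fun q => (Function.update q.1 i q.2, q.1 i)) ?_ ?_ ?_ ?_ ?_
    · rintro ⟨v, x⟩ hq
      simp only [mem_product, mem_bx, mem_Icc] at hq ⊢
      refine ⟨fun j => ?_, hq.1 i⟩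
      by_cases hj : j = i
      · subst hj
        simpa using hq.2
      · simpa [Function.update_of_ne hj] using hq.1 j
    · rintro ⟨v, x⟩ hq
      simp only [mem_product, mem_bx, mem_Icc] at hq ⊢
      refine ⟨fun j => ?_, hq.1 i⟩
      by_cases hj : j = i
      · subst hj
        simpa using hq.2
      · simpa [Function.update_of_ne hj] using hq.1 j
    · rintro ⟨v, x⟩ _
      simp
    · rintro ⟨v, x⟩ _
      simp
    · rintro ⟨v, x⟩ _
      rfl
  rw [h, Finset.sum_product]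
  simp only [Finset.sum_const, Nat.card_Icc, add_tsub_cancel_right, nsmul_eq_mul]
  rw [Finset.mul_sum]

theorem sum_dist_le (M N ρ ρ' : ℕ) (f : ℕ → ℝ) (hf : ∀ y, 0 ≤ f y)
    (h1 : ∀ x ∈ Icc 1 N, x + ρ ≤ M) (h2 : ρ' ≤ M) :
    ∑ x ∈ Icc 1 N, f (Nat.dist (x + ρ) ρ') ≤ 2 * (f 0 + ∑ y ∈ Icc 1 M, f y) := by
  have hins : ∑ y ∈ insert 0 (Icc 1 M), f y = f 0 + ∑ y ∈ Icc 1 M, f y :=
    Finset.sum_insert (by simp)
  rw [← hins, two_mul, ← Finset.sum_filter_add_sum_filter_not (Icc 1 N) (fun x => ρ' ≤ x + ρ)]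
  refine add_le_add ?_ ?_
  · rw [← Finset.sum_image (s := (Icc 1 N).filter (fun x => ρ' ≤ x + ρ)) (f := f)
      (g := fun x => Nat.dist (x + ρ) ρ')]
    · refine Finset.sum_le_sum_of_subset_of_nonneg ?_ (fun y _ _ => hf y)
      intro y hy
      obtain ⟨x, hx, rfl⟩ := Finset.mem_image.1 hy
      have hx' := (Finset.mem_filter.1 hx)
      have := h1 x hx'.1
      simp only [mem_insert, mem_Icc, Nat.dist]
      omega
    · intro x hx y hy hxy
      have hx' := (Finset.mem_filter.1 hx).2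
      have hy' := (Finset.mem_filter.1 hy).2
      simp only [Nat.dist] at hxy
      omega
  · rw [← Finset.sum_image (s := (Icc 1 N).filter (fun x => ¬ ρ' ≤ x + ρ)) (f := f)
      (g := fun x => Nat.dist (x + ρ) ρ')]
    · refine Finset.sum_le_sum_of_subset_of_nonneg ?_ (fun y _ _ => hf y)
      intro y hy
      obtain ⟨x, hx, rfl⟩ := Finset.mem_image.1 hy
      have hx' := (Finset.mem_filter.1 hx)
      have := h1 x hx'.1
      simp only [mem_insert, mem_Icc, Nat.dist]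
      omega
    · intro x hx y hy hxy
      have hx' := (Finset.mem_filter.1 hx).2
      have hy' := (Finset.mem_filter.1 hy).2
      simp only [Nat.dist] at hxy
      omega

theorem sum_coord_le {D N : ℕ} {v : Fin D → ℕ} (hv : v ∈ bx D N) (T : Finset (Fin D)) :
    ∑ i ∈ T, v i ≤ D * N := by
  have h := mem_bx.1 hv
  calc ∑ i ∈ T, v i ≤ ∑ _i ∈ T, N := Finset.sum_le_sum fun i _ => (h i).2
    _ = T.card * N := by simp
    _ ≤ D * N := Nat.mul_le_mul_right _ (by simpa using Finset.card_le_univ T)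

theorem update_mem {D N : ℕ} {v : Fin D → ℕ} (hv : v ∈ bx D N) (i : Fin D) {x : ℕ}
    (hx : x ∈ Icc 1 N) : Function.update v i x ∈ bx D N := by
  rw [mem_bx] at hv ⊢
  intro j
  by_cases hj : j = i
  · subst hj
    simpa using hx
  · simpa [Function.update_of_ne hj] using hv j

open Pool.Agent.Helper83 in
theorem sum_W_dist_aux (D κ N : ℕ) (C : ℝ) (hC : ∀ M : ℕ, ∑ d ∈ Icc 1 M, HLC.W d ^ κ ≤ C * M)
    (hN : 1 ≤ N) (T T' : Finset (Fin D)) (i : Fin D) (h1 : i ∈ T) (h2 : i ∉ T') :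
    ∑ v ∈ bx D N, HLC.W (Nat.dist (∑ i ∈ T, v i) (∑ i ∈ T', v i)) ^ κ ≤
      2 * (1 + C * D) * N ^ D := by
  have hN0 : (0 : ℝ) < N := by exact_mod_cast hN
  have hN1 : (1 : ℝ) ≤ N := by exact_mod_cast hN
  have hf : ∀ y, 0 ≤ HLC.W y ^ κ := fun y => pow_nonneg (zero_le_one.trans (HLC.one_le_W y)) κ
  have hsum := sum_update i N
    (fun v => HLC.W (Nat.dist (∑ i ∈ T, v i) (∑ i ∈ T', v i)) ^ κ)
  have hle : ∀ v ∈ bx D N, ∑ x ∈ Icc 1 N,
      HLC.W (Nat.dist (∑ j ∈ T, Function.update v i x j) (∑ j ∈ T', Function.update v i x j)) ^ κ ≤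
        2 * (1 + C * D) * N := by
    intro v hv
    have e1 : ∀ x, ∑ j ∈ T, Function.update v i x j = x + ∑ j ∈ T.erase i, v j := by
      intro x
      rw [← Finset.add_sum_erase T _ h1, Function.update_self]
      congr 1
      exact Finset.sum_congr rfl fun j hj => Function.update_of_ne (Finset.ne_of_mem_erase hj) _ _
    have e2 : ∀ x, ∑ j ∈ T', Function.update v i x j = ∑ j ∈ T', v j := by
      intro x
      exact Finset.sum_congr rfl fun j hj =>
        Function.update_of_ne (fun e => h2 (by rw [← e]; exact hj)) _ _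
    have e3 := sum_dist_le (D * N) N (∑ j ∈ T.erase i, v j) (∑ j ∈ T', v j)
      (fun y => HLC.W y ^ κ) hf (by
        intro x hx
        rw [← e1 x]
        exact sum_coord_le (update_mem hv i hx) T) (sum_coord_le hv T')
    have e4 : ∑ x ∈ Icc 1 N, HLC.W (Nat.dist (∑ j ∈ T, Function.update v i x j)
        (∑ j ∈ T', Function.update v i x j)) ^ κ =
        ∑ x ∈ Icc 1 N, HLC.W (Nat.dist (x + ∑ j ∈ T.erase i, v j) (∑ j ∈ T', v j)) ^ κ :=
      Finset.sum_congr rfl fun x _ => by rw [e1, e2]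
    rw [e4]
    refine e3.trans ?_
    have e5 : HLC.W 0 = 1 := by simp [HLC.W]
    have e6 := hC (D * N)
    push_cast at e6
    simp only [e5, one_pow]
    nlinarith
  have h3 : (N : ℝ) * ∑ v ∈ bx D N, HLC.W (Nat.dist (∑ i ∈ T, v i) (∑ i ∈ T', v i)) ^ κ ≤
      N * (2 * (1 + C * D) * N ^ D) := by
    rw [← hsum]
    refine (Finset.sum_le_sum hle).trans (le_of_eq ?_)
    rw [Finset.sum_const, card_bx, nsmul_eq_mul]
    push_cast
    ring
  exact le_of_mul_le_mul_left h3 hN0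

open Pool.Agent.Helper83 in
theorem sum_W_dist (D κ : ℕ) : ∃ C : ℝ, 0 < C ∧ ∀ N : ℕ, 1 ≤ N → ∀ T T' : Finset (Fin D), T ≠ T' →
    ∑ v ∈ bx D N, HLC.W (Nat.dist (∑ i ∈ T, v i) (∑ i ∈ T', v i)) ^ κ ≤ C * N ^ D := by
  obtain ⟨C, hC0, hC⟩ := HLC.sum_W_pow κ
  refine ⟨2 * (1 + C * D), by positivity, fun N hN T T' hT => ?_⟩
  obtain ⟨i, hi⟩ : ∃ i, ¬ (i ∈ T ↔ i ∈ T') := by
    by_contra hcon
    push Not at hcon
    exact hT (Finset.ext hcon)
  by_cases h1 : i ∈ T
  · have h2 : i ∉ T' := fun h2 => hi ⟨fun _ => h2, fun _ => h1⟩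
    exact sum_W_dist_aux D κ N C hC hN T T' i h1 h2
  · have h2 : i ∈ T' := by
      by_contra h2
      exact hi ⟨fun h => absurd h h1, fun h => absurd h h2⟩
    have := sum_W_dist_aux D κ N C hC hN T' T i h2 h1
    simpa only [Nat.dist_comm] using this

end UGB
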